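import Mathlib

/-! Weak Bezout bound for plane curves (resultant lemmas as in the d0dfcd library). -/

namespace Pool.Agent.KSD

open Polynomial

theorem natDegree_det_le {A n : Type*} [CommRing A] [Fintype n] [DecidableEq n]
    (M : Matrix n n A[X]) (α β : n → ℕ)
    (h : ∀ i j, M i j ≠ 0 → (M i j).natDegree + α i ≤ β j) :
    M.det.natDegree ≤ ∑ j, β j - ∑ i, α i := by
  rw [Matrix.det_apply']
  refine natDegree_sum_le_of_forall_le _ _ fun σ _ => ?_
  refine (natDegree_mul_le).trans ?_
  rw [natDegree_intCast, zero_add]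
  by_cases h0 : ∀ j, M (σ j) j ≠ 0
  · refine (natDegree_prod_le _ _).trans ?_
    have := Finset.sum_le_sum fun j (_ : j ∈ Finset.univ) => h (σ j) j (h0 j)
    rw [Finset.sum_add_distrib, Equiv.sum_comp σ α] at this
    omega
  · push Not at h0
    obtain ⟨j, hj⟩ := h0
    rw [Finset.prod_eq_zero (f := fun i => M (σ i) i) (Finset.mem_univ j) hj]
    simp

/-- Total degree at most `d`, read on the coefficients. -/
def TD {A : Type*} [CommRing A] (d : ℕ) (b : A[X][X]) : Prop :=
  ∀ k i, (b.coeff k).coeff i ≠ 0 → i + k ≤ d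

theorem TD.deg {A : Type*} [CommRing A] {d : ℕ} {b : A[X][X]} (h : TD d b) (k : ℕ)
    (hk : b.coeff k ≠ 0) : (b.coeff k).natDegree + k ≤ d :=
  h k _ (leadingCoeff_ne_zero.2 hk)

theorem TD.natDegree_le {A : Type*} [CommRing A] {d : ℕ} {b : A[X][X]} (h : TD d b) :
    b.natDegree ≤ d := by
  by_cases h0 : b = 0
  · simp [h0]
  · have := h.deg _ (leadingCoeff_ne_zero.2 h0)
    omega

theorem td_symm {A : Type*} [CommRing A] (f : MvPolynomial (Fin 2) A) :
    TD f.totalDegree ((Bivariate.equivMvPolynomial A).symm f) := by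
  classical
  conv => arg 2; rw [f.as_sum, map_sum]
  refine Finset.sum_induction _ (TD f.totalDegree) ?_ ?_ ?_
  · intro a b ha hb k i hki
    rw [coeff_add, coeff_add] at hki
    by_cases h : (a.coeff k).coeff i = 0
    · rw [h, zero_add] at hki
      exact hb k i hki
    · exact ha k i h
  · intro k i h; simp at h
  · intro e he k i hki
    have h1 := MvPolynomial.le_totalDegree he
    rw [Finsupp.sum_fintype _ _ (by simp), Fin.sum_univ_two] at h1
    have h2 : (Bivariate.equivMvPolynomial A).symm (MvPolynomial.monomial e (f.coeff e)) =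
        monomial (e 1) (monomial (e 0) (f.coeff e)) := by
      rw [MvPolynomial.monomial_eq, Finsupp.prod_fintype _ _ (by simp), Fin.prod_univ_two]
      simp [← C_mul_X_pow_eq_monomial, mul_assoc]
    rw [h2, coeff_monomial] at hki
    split_ifs at hki with h3
    · rw [coeff_monomial] at hki
      split_ifs at hki with h4
      · omega
      · exact absurd rfl hki
    · simp at hki

theorem natDegree_resultant_le {A : Type*} [CommRing A] {f g : A[X][X]} {d e : ℕ} (hf : TD d f)
    (hg : TD e g) : (resultant f g).natDegree ≤ d * e := by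
  have h1 := natDegree_det_le (sylvester f g f.natDegree g.natDegree) (fun i => i)
    (fun j => j.addCases (fun j1 => e + j1) (fun j2 => d + j2)) (by
      intro i j
      induction j using Fin.addCases with
      | left j =>
        simp only [sylvester, Matrix.of_apply, Fin.addCases_left]
        split_ifs with hij
        · intro h0
          have := hg.deg _ h0
          have := hij.1
          omega
        · simp
      | right j =>
        simp only [sylvester, Matrix.of_apply, Fin.addCases_right]
        split_ifs with hij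
        · intro h0
          have := hf.deg _ h0
          have := hij.1
          omega
        · simp)
  rw [Fin.sum_univ_add, Fin.sum_univ_add] at h1
  simp only [Fin.addCases_left, Fin.addCases_right, Finset.sum_add_distrib, Fin.val_castAdd,
    Fin.val_natAdd, Finset.sum_const, Finset.card_univ, Fintype.card_fin, smul_eq_mul] at h1
  refine le_trans h1 ?_
  obtain ⟨u, hu⟩ := Nat.exists_eq_add_of_le hf.natDegree_le
  obtain ⟨v, hv⟩ := Nat.exists_eq_add_of_le hg.natDegree_le
  generalize f.natDegree = df at *
  generalize g.natDegree = dg at *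
  subst hu hv
  have : (df + u) * (dg + v) = df * (dg + v) + dg * u + u * v := by ring
  have : dg * (df + u) = dg * df + dg * u := by ring
  omega

theorem resultant_ne_zero_of_prime {A : Type*} [CommRing A] [IsDomain A] [IsGCDMonoid A]
    {f g : A[X]} (hf : Prime f) (hfg : ¬ f ∣ g) : resultant f g ≠ 0 := by
  by_cases h0 : f.natDegree = 0
  · rw [h0, resultant_zero_left_deg]
    apply pow_ne_zero
    intro h
    apply hf.ne_zero
    rw [eq_C_of_natDegree_eq_zero h0, h, C_0]
  let L := FractionRing A
  have hinj : Function.Injective (algebraMap A L) := IsFractionRing.injective A L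
  have hprim := hf.irreducible.isPrimitive h0
  have hirr := (hprim.irreducible_iff_irreducible_map_fraction_map (K := L)).1 hf.irreducible
  have hcop : IsCoprime (f.map (algebraMap A L)) (g.map (algebraMap A L)) :=
    (hirr.coprime_iff_not_dvd).2 fun h => hfg (hprim.dvd_of_fraction_map_dvd_fraction_map h)
  have := resultant_ne_zero _ _ hcop
  rw [natDegree_map_eq_of_injective hinj, natDegree_map_eq_of_injective hinj,
    resultant_map_map] at this
  intro h
  rw [h, map_zero] at this
  exact this rfl


theorem bez_fst {K : Type*} [Field K] {f g : MvPolynomial (Fin 2) K} (hf : Irreducible f)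
    (hfg : ¬ f ∣ g) (T : Finset K)
    (hT : ∀ x ∈ T, ∃ y, MvPolynomial.eval ![x, y] f = 0 ∧ MvPolynomial.eval ![x, y] g = 0) :
    T.card ≤ f.totalDegree * g.totalDegree := by
  classical
  let E := (Bivariate.equivMvPolynomial K).symm
  have hf' : Prime (E f) := (MulEquiv.prime_iff E.toMulEquiv).2 hf.prime
  have hfg' : ¬ E f ∣ E g := fun h => hfg ((map_dvd_iff E.toMulEquiv).1 h)
  have hR0 := resultant_ne_zero_of_prime hf' hfg'
  have hRd := natDegree_resultant_le (td_symm f) (td_symm g)
  have hev : ∀ (x y : K) (p : MvPolynomial (Fin 2) K),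
      (E p).evalEval x y = MvPolynomial.eval ![x, y] p := by
    intro x y p
    induction p using MvPolynomial.induction_on with
    | C a => simp [E]
    | add p q hp hq => simp [hp, hq, evalEval_add]
    | mul_X p i hp =>
      rw [map_mul, evalEval_mul, hp, map_mul]
      fin_cases i <;> simp [E, evalEval_C]
  refine le_trans ?_ hRd
  refine le_trans ?_ (card_roots' _)
  refine le_trans (Finset.card_le_card ?_) (Multiset.toFinset_card_le _)
  intro x hx
  rw [Multiset.mem_toFinset, mem_roots hR0, IsRoot.def]
  obtain ⟨y, h1, h2⟩ := hT x hx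
  rw [← hev] at h1 h2
  by_cases h0 : (E f).natDegree ≠ 0 ∨ (E g).natDegree ≠ 0
  · obtain ⟨p, q, -, -, h⟩ := exists_mul_add_mul_eq_C_resultant (E f) (E g) le_rfl le_rfl h0
    have := congrArg (evalEval x y) h
    rw [evalEval_add, evalEval_mul, evalEval_mul, h1, h2, evalEval_C] at this
    simpa using this.symm
  · exfalso
    push Not at h0
    have e1 := eq_C_of_natDegree_eq_zero h0.1
    have e2 := eq_C_of_natDegree_eq_zero h0.2
    rw [e1, evalEval_C] at h1
    rw [e2, evalEval_C] at h2
    have hp : Prime ((E f).coeff 0) := prime_C_iff.1 (e1 ▸ hf')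
    have d1 : X - C x ∣ (E f).coeff 0 := dvd_iff_isRoot.2 h1
    have d2 : X - C x ∣ (E g).coeff 0 := dvd_iff_isRoot.2 h2
    apply hfg'
    rw [e1, e2]
    exact map_dvd C (((irreducible_X_sub_C x).associated_of_dvd hp.irreducible d1).symm.dvd.trans d2)

theorem bez {K : Type*} [Field K] {f g : MvPolynomial (Fin 2) K} (hf : Irreducible f)
    (hfg : ¬ f ∣ g) (T : Finset (Fin 2 → K))
    (hT : ∀ P ∈ T, MvPolynomial.eval P f = 0 ∧ MvPolynomial.eval P g = 0) :
    T.card ≤ (f.totalDegree * g.totalDegree) ^ 2 := by
  classical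
  have e0 : ∀ P : Fin 2 → K, ![P 0, P 1] = P := fun P => by
    funext i; fin_cases i <;> rfl
  have h1 := bez_fst hf hfg (T.image (· 0)) (by
    intro x hx
    obtain ⟨P, hP, rfl⟩ := Finset.mem_image.1 hx
    exact ⟨P 1, by rw [e0]; exact (hT P hP).1, by rw [e0]; exact (hT P hP).2⟩)
  let e := MvPolynomial.renameEquiv K (Equiv.swap (0 : Fin 2) 1)
  have hd : ∀ p : MvPolynomial (Fin 2) K, (e p).totalDegree ≤ p.totalDegree := fun p =>
    MvPolynomial.totalDegree_rename_le _ _
  have hev : ∀ (P : Fin 2 → K) (p : MvPolynomial (Fin 2) K),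
      MvPolynomial.eval ![P 1, P 0] (e p) = MvPolynomial.eval P p := by
    intro P p
    simp only [e, MvPolynomial.renameEquiv_apply, MvPolynomial.eval_rename]
    congr 2
    funext i; fin_cases i <;> simp
  have h2 := bez_fst (f := e f) (g := e g) ((MulEquiv.irreducible_iff e.toMulEquiv).2 hf)
    (fun h => hfg ((map_dvd_iff e.toMulEquiv).1 h)) (T.image (· 1)) (by
    intro x hx
    obtain ⟨P, hP, rfl⟩ := Finset.mem_image.1 hx
    exact ⟨P 0, by rw [hev]; exact (hT P hP).1, by rw [hev]; exact (hT P hP).2⟩)
  have h3 : T.card ≤ ((T.image (· 0)) ×ˢ (T.image (· 1))).card := by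
    refine Finset.card_le_card_of_injOn (fun P => (P 0, P 1)) ?_ ?_
    · intro P hP
      simp only [Finset.coe_product, Set.mem_prod, Finset.mem_coe, Finset.mem_image]
      exact ⟨⟨P, hP, rfl⟩, ⟨P, hP, rfl⟩⟩
    · intro P _ Q _ h
      simp only [Prod.mk.injEq] at h
      rw [← e0 P, ← e0 Q, h.1, h.2]
  rw [Finset.card_product] at h3
  refine h3.trans ?_
  rw [sq]
  exact Nat.mul_le_mul h1 (h2.trans (Nat.mul_le_mul (hd f) (hd g)))

end Pool.Agent.KSD
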