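import Pool.Agent.MP_c8dfda_nt.dm.Bez

/-! Homogenised substitution, and the chain of irreducible curves along an orbit. -/

namespace Pool.Agent.KSD

open MvPolynomial

variable {K : Type*} [Field K]

/-- The homogenisation of `G` in degree `e`, evaluated at `(U, V, W)`. -/
noncomputable def hz {A : Type*} [CommRing A] [Algebra K A] (e : ℕ) (G : MvPolynomial (Fin 2) K)
    (U V W : A) : A :=
  ∑ s ∈ G.support, algebraMap K A (G.coeff s) * U ^ s 0 * V ^ s 1 * W ^ (e - s 0 - s 1)

theorem map_hz {A B : Type*} [CommRing A] [Algebra K A] [CommRing B] [Algebra K B]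
    (φ : A →ₐ[K] B) (e : ℕ) (G : MvPolynomial (Fin 2) K) (U V W : A) :
    φ (hz e G U V W) = hz e G (φ U) (φ V) (φ W) := by
  simp [hz, map_sum]

theorem supp_le {G : MvPolynomial (Fin 2) K} {s : Fin 2 →₀ ℕ} (hs : s ∈ G.support) :
    s 0 + s 1 ≤ G.totalDegree := by
  have h1 := MvPolynomial.le_totalDegree hs
  rwa [Finsupp.sum_fintype _ _ (by simp), Fin.sum_univ_two] at h1

theorem hz_eq {L : Type*} [Field L] [Algebra K L] {e : ℕ} {G : MvPolynomial (Fin 2) K}
    (hG : G.totalDegree ≤ e) (u v : L) (W : L) :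
    hz e G (W * u) (W * v) W = W ^ e * aeval ![u, v] G := by
  rw [aeval_def, eval₂_eq', Finset.mul_sum, hz]
  refine Finset.sum_congr rfl fun s hs => ?_
  have h := (supp_le hs).trans hG
  obtain ⟨c, hc⟩ := Nat.exists_eq_add_of_le h
  have : e - s 0 - s 1 = c := by omega
  rw [this, Fin.prod_univ_two, hc]
  simp only [Matrix.cons_val_zero, Matrix.cons_val_one]
  ring

theorem deg_hz {e t : ℕ} {G U V W : MvPolynomial (Fin 2) K} (hG : G.totalDegree ≤ e)
    (hU : U.totalDegree ≤ t) (hV : V.totalDegree ≤ t) (hW : W.totalDegree ≤ t) :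
    (hz e G U V W).totalDegree ≤ e * t := by
  refine totalDegree_finsetSum_le fun s hs => ?_
  have h := (supp_le hs).trans hG
  obtain ⟨c, hc⟩ := Nat.exists_eq_add_of_le h
  have hc' : e - s 0 - s 1 = c := by omega
  have h1 := (totalDegree_pow U (s 0)).trans (Nat.mul_le_mul_left _ hU)
  have h2 := (totalDegree_pow V (s 1)).trans (Nat.mul_le_mul_left _ hV)
  have h3 := (totalDegree_pow W c).trans (Nat.mul_le_mul_left _ hW)
  rw [hc']
  refine (totalDegree_mul _ _).trans ?_
  refine (Nat.add_le_add_right (totalDegree_mul _ _) _).trans ?_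
  refine (Nat.add_le_add_right (Nat.add_le_add_right (totalDegree_mul _ _) _) _).trans ?_
  rw [algebraMap_eq, totalDegree_C, hc]
  nlinarith

theorem hz_mem {A : Type*} [CommRing A] [Algebra K A] (S : Subring A) {e : ℕ}
    {G : MvPolynomial (Fin 2) K} (hG : ∀ s, algebraMap K A (G.coeff s) ∈ S) {U V W : A}
    (hU : U ∈ S) (hV : V ∈ S) (hW : W ∈ S) : hz e G U V W ∈ S :=
  S.sum_mem fun s _ =>
    S.mul_mem (S.mul_mem (S.mul_mem (hG s) (S.pow_mem hU _)) (S.pow_mem hV _)) (S.pow_mem hW _)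

omit [Field K] in
theorem vec_eta (P : Fin 2 → K) : ![P 0, P 1] = P := by
  funext i; fin_cases i <;> rfl

theorem eval_hz (Q : Fin 2 → K) (e : ℕ) (G U V W : MvPolynomial (Fin 2) K) :
    eval Q (hz e G U V W) = hz e G (eval Q U) (eval Q V) (eval Q W) := by
  have := map_hz (aeval Q : MvPolynomial (Fin 2) K →ₐ[K] K) e G U V W
  exact this

/-- A nonzero polynomial through `T` has an irreducible factor through a large part of `T`. -/
theorem irr_part {ι : Type*} (P : ι → Fin 2 → K) (d : ℕ) :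
    ∀ (G : MvPolynomial (Fin 2) K), G ≠ 0 → G.totalDegree ≤ d → ∀ T : Finset ι, T.Nonempty →
      (∀ n ∈ T, eval (P n) G = 0) → ∃ T' ⊆ T, T.card ≤ d * T'.card ∧
        ∃ Φ : MvPolynomial (Fin 2) K, Irreducible Φ ∧ Φ.totalDegree ≤ d ∧
          ∀ n ∈ T', eval (P n) Φ = 0 := by
  classical
  have key : ∀ G : MvPolynomial (Fin 2) K, G ≠ 0 → G.totalDegree = 0 → ∀ Q, eval Q G ≠ 0 := by
    intro G hG h0 Q
    rw [totalDegree_eq_zero_iff_eq_C] at h0
    rw [h0, eval_C]
    intro h
    apply hG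
    rw [h0, h, map_zero]
  induction d with
  | zero =>
    intro G hG hd T ⟨n, hn⟩ hT
    exact absurd (hT n hn) (key G hG (by omega) _)
  | succ d ih =>
    intro G hG hd T ⟨n, hn⟩ hT
    have hnu : ¬ IsUnit G := fun hu => by
      have := hu.map (eval (P n))
      rw [hT n hn] at this
      exact not_isUnit_zero this
    obtain ⟨Φ, hΦ, G', rfl⟩ := WfDvdMonoid.exists_irreducible_factor hnu hG
    have hG' : G' ≠ 0 := right_ne_zero_of_mul hG
    have hdeg := totalDegree_mul_of_isDomain hΦ.ne_zero hG'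
    have hΦ1 : Φ.totalDegree ≠ 0 := by
      intro h0
      apply hΦ.not_isUnit
      rw [totalDegree_eq_zero_iff_eq_C] at h0
      rw [h0]
      refine IsUnit.map C (IsUnit.mk0 _ fun h => hΦ.ne_zero ?_)
      rw [h0, h, map_zero]
    let T1 := T.filter fun n => eval (P n) Φ = 0
    let T2 := T.filter fun n => ¬ eval (P n) Φ = 0
    have hc : T1.card + T2.card = T.card := Finset.card_filter_add_card_filter_not _
    by_cases h2 : T2.Nonempty
    · obtain ⟨T', hT', hc', Φ', h1, h3, h4⟩ := ih G' hG' (by omega) T2 h2 (by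
        intro m hm
        have hm' := Finset.mem_filter.1 hm
        have := hT m hm'.1
        rw [map_mul] at this
        exact (mul_eq_zero.1 this).resolve_left hm'.2)
      by_cases hle : T1.card ≤ T'.card
      · exact ⟨T', hT'.trans (Finset.filter_subset _ _), by nlinarith, Φ', h1, by omega, h4⟩
      · exact ⟨T1, Finset.filter_subset _ _, by nlinarith, Φ, hΦ, by omega,
          fun m hm => (Finset.mem_filter.1 hm).2⟩
    · rw [Finset.not_nonempty_iff_eq_empty] at h2
      rw [h2, Finset.card_empty] at hc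
      exact ⟨T1, Finset.filter_subset _ _, by nlinarith, Φ, hΦ, by omega,
        fun m hm => (Finset.mem_filter.1 hm).2⟩

theorem sidon (S : Finset ℕ) (n0 N B : ℕ) (hS : S ⊆ Finset.Ico n0 (n0 + N))
    (h : ∀ g, 1 ≤ g → g ≤ N → (S.filter fun n => n + g ∈ S).card ≤ B) :
    S.card * S.card ≤ S.card + 2 * (N * B) := by
  classical
  let A := (S ×ˢ S).filter fun p => p.1 < p.2
  have hA : A.card ≤ N * B := by
    have h1 : A ⊆ (Finset.Icc 1 N).biUnion fun g =>
        (S.filter fun n => n + g ∈ S).image fun n => (n, n + g) := by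
      intro p hp
      simp only [A, Finset.mem_filter, Finset.mem_product] at hp
      have h1 := Finset.mem_Ico.1 (hS hp.1.1)
      have h2 := Finset.mem_Ico.1 (hS hp.1.2)
      simp only [Finset.mem_biUnion, Finset.mem_Icc, Finset.mem_image, Finset.mem_filter]
      have e : p.1 + (p.2 - p.1) = p.2 := by omega
      exact ⟨p.2 - p.1, ⟨by omega, by omega⟩, p.1, ⟨hp.1.1, by rw [e]; exact hp.1.2⟩, by rw [e]⟩
    refine (Finset.card_le_card h1).trans ((Finset.card_biUnion_le_card_mul _ _ B ?_).trans ?_)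
    · intro g hg
      have := Finset.mem_Icc.1 hg
      exact Finset.card_image_le.trans (h g this.1 this.2)
    · simp
  have h2 : S ×ˢ S ⊆ (S.image fun n => (n, n)) ∪ (A ∪ A.image Prod.swap) := by
    intro p hp
    have hp' := Finset.mem_product.1 hp
    simp only [Finset.mem_union, Finset.mem_image, A, Finset.mem_filter, Finset.mem_product]
    rcases lt_trichotomy p.1 p.2 with h | h | h
    · exact Or.inr (Or.inl ⟨hp', h⟩)
    · exact Or.inl ⟨p.1, hp'.1, Prod.ext rfl h⟩
    · exact Or.inr (Or.inr ⟨p.swap, ⟨⟨hp'.2, hp'.1⟩, h⟩, rfl⟩)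
  have h3 := Finset.card_le_card h2
  rw [Finset.card_product] at h3
  have h4 := Finset.card_union_le (S.image fun n => (n, n)) (A ∪ A.image Prod.swap)
  have h5 := Finset.card_union_le A (A.image Prod.swap)
  have h6 : (S.image fun n => (n, n)).card ≤ S.card := Finset.card_image_le
  have h7 : (A.image Prod.swap).card ≤ A.card := Finset.card_image_le
  omega

theorem chain {a0 a1 b : MvPolynomial (Fin 2) K} {e : ℕ} (he : 1 ≤ e) (h0 : a0.totalDegree ≤ e)
    (h1 : a1.totalDegree ≤ e) (h2 : b.totalDegree ≤ e) (P : ℕ → Fin 2 → K)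
    (hb : ∀ n, eval (P n) b ≠ 0)
    (hP0 : ∀ n, eval (P n) a0 = eval (P n) b * P (n + 1) 0)
    (hP1 : ∀ n, eval (P n) a1 = eval (P n) b * P (n + 1) 1)
    (hinj : Function.Injective P) (n0 N Γ δ : ℕ)
    (cover : ∀ S : Finset ℕ, S ⊆ Finset.Ico n0 (n0 + 2 * N) → S.Nonempty → ∃ T ⊆ S,
      S.card ≤ Γ * T.card ∧ ∃ Φ : MvPolynomial (Fin 2) K, Irreducible Φ ∧ Φ.totalDegree ≤ δ ∧
        ∀ n ∈ T, eval (P n) Φ = 0)
    (hN : Γ * (1 + 2 * (Γ * (δ * (δ * e)) ^ 2)) < N) :
    ∃ G : MvPolynomial (Fin 2) K, G ≠ 0 ∧ ∀ n, eval (P n) G = 0 := by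
  classical
  set B := (δ * (δ * e)) ^ 2 with hB
  have hN0 : 0 < N := by omega
  obtain ⟨S, hS, hSc, Φ0, hΦ0, hd0, hv0⟩ := cover (Finset.Ico n0 (n0 + N))
    (Finset.Ico_subset_Ico le_rfl (by omega)) ⟨n0, Finset.mem_Ico.2 ⟨le_rfl, by omega⟩⟩
  rw [Nat.card_Ico, Nat.add_sub_cancel_left] at hSc
  have hs : 1 + 2 * (Γ * B) < S.card := lt_of_mul_lt_mul_left (hN.trans_le hSc) (Nat.zero_le _)
  have hcnt : ∀ (Φ G : MvPolynomial (Fin 2) K) (T : Finset ℕ), Irreducible Φ →
      Φ.totalDegree ≤ δ → G.totalDegree ≤ δ * e → B < T.card →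
      (∀ n ∈ T, eval (P n) Φ = 0 ∧ eval (P n) G = 0) → Φ ∣ G := by
    intro Φ G T hΦ hd hG hT hv
    by_contra hn
    have := bez hΦ hn (T.image P) (by
      intro Q hQ
      obtain ⟨n, hn, rfl⟩ := Finset.mem_image.1 hQ
      exact hv n hn)
    rw [Finset.card_image_of_injective _ hinj] at this
    have h3 : (Φ.totalDegree * G.totalDegree) ^ 2 ≤ B :=
      Nat.pow_le_pow_left (Nat.mul_le_mul hd hG) 2
    omega
  have hpb : ∀ (Φ : MvPolynomial (Fin 2) K), Φ.totalDegree ≤ δ → ∀ n,
      eval (P n) (hz δ Φ a0 a1 b) = eval (P n) b ^ δ * eval (P (n + 1)) Φ := by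
    intro Φ hd n
    rw [eval_hz, hP0, hP1, hz_eq hd, vec_eta]
    rfl
  have step : ∀ i, i ≤ N → ∃ Φ : MvPolynomial (Fin 2) K, Irreducible Φ ∧ Φ.totalDegree ≤ δ ∧
      ∀ m, eval (P m) Φ0 = 0 → eval (P (m + i)) Φ = 0 := by
    intro i
    induction i with
    | zero => exact fun _ => ⟨Φ0, hΦ0, hd0, fun m hm => hm⟩
    | succ i ih =>
      intro hi
      obtain ⟨Φ, hΦ, hd, hv⟩ := ih (by omega)
      have hinj' : Function.Injective fun n : ℕ => n + (i + 1) := add_left_injective _
      obtain ⟨T, hT, hTc, Φ', hΦ', hd', hv'⟩ := cover (S.image fun n => n + (i + 1)) (by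
        intro m hm
        obtain ⟨n, hn, rfl⟩ := Finset.mem_image.1 hm
        have := Finset.mem_Ico.1 (hS hn)
        exact Finset.mem_Ico.2 ⟨by omega, by omega⟩)
        (Finset.Nonempty.image (Finset.card_pos.1 (by omega)) _)
      rw [Finset.card_image_of_injective _ hinj'] at hTc
      have hTB : B < T.card := by
        by_contra hc
        have := Nat.mul_le_mul_left Γ (not_lt.1 hc)
        omega
      have hmem : ∀ m ∈ T, ∃ n ∈ S, m = n + i + 1 := by
        intro m hm
        obtain ⟨n, hn, rfl⟩ := Finset.mem_image.1 (hT hm)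
        exact ⟨n, hn, rfl⟩
      have hdvd := hcnt Φ (hz δ Φ' a0 a1 b) (T.image fun m => m - 1) hΦ hd (deg_hz hd' h0 h1 h2)
        (by
          rw [Finset.card_image_of_injOn]
          · exact hTB
          · intro m hm m' hm' h
            obtain ⟨n, -, rfl⟩ := hmem m hm
            obtain ⟨n', -, rfl⟩ := hmem m' hm'
            simp only at h
            omega)
        (by
          intro m' hm'
          obtain ⟨m, hm, rfl⟩ := Finset.mem_image.1 hm'
          obtain ⟨n, hn, rfl⟩ := hmem m hm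
          rw [Nat.add_sub_cancel]
          exact ⟨hv n (hv0 n hn), by rw [hpb _ hd', hv' _ hm, mul_zero]⟩)
      refine ⟨Φ', hΦ', hd', fun m hm => ?_⟩
      obtain ⟨c, hc⟩ := hdvd
      have h3 := hpb Φ' hd' (m + i)
      rw [hc, map_mul, hv m hm, zero_mul] at h3
      exact (mul_eq_zero.1 h3.symm).resolve_left (pow_ne_zero _ (hb _))
  choose! Φ hΦ using step
  have hg : ∃ g, 1 ≤ g ∧ g ≤ N ∧ B < (S.filter fun n => n + g ∈ S).card := by
    by_contra hc
    push Not at hc
    have h3 := sidon S n0 N B hS hc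
    have h4 : N * B ≤ Γ * S.card * B := Nat.mul_le_mul_right _ hSc
    have h5 : (2 + 2 * (Γ * B)) * S.card ≤ S.card * S.card := Nat.mul_le_mul_right _ (by omega)
    nlinarith
  obtain ⟨g, hg1, hgN, hgB⟩ := hg
  have hdvd := hcnt (Φ g) Φ0 ((S.filter fun n => n + g ∈ S).image fun n => n + g) (hΦ g hgN).1
    (hΦ g hgN).2.1 (hd0.trans (Nat.le_mul_of_pos_right _ he))
    (by rwa [Finset.card_image_of_injective _ (add_left_injective _)])
    (by
      intro m hm
      obtain ⟨n, hn, rfl⟩ := Finset.mem_image.1 hm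
      have hn' := Finset.mem_filter.1 hn
      exact ⟨(hΦ g hgN).2.2 n (hv0 n hn'.1), hv0 _ hn'.2⟩)
  obtain ⟨n1, hn1⟩ : S.Nonempty := Finset.card_pos.1 (by omega)
  have hper : ∀ j, eval (P (n1 + j * g)) Φ0 = 0 := by
    intro j
    induction j with
    | zero => simpa using hv0 n1 hn1
    | succ j ih =>
      obtain ⟨c, hc⟩ := hdvd
      have := (hΦ g hgN).2.2 _ ih
      rw [hc, map_mul, show n1 + (j + 1) * g = n1 + j * g + g by ring, this, zero_mul]
  refine ⟨(∏ i ∈ Finset.range g, Φ i) * ∏ m ∈ Finset.range n1, (X 0 - C (P m 0)), ?_, ?_⟩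
  · refine mul_ne_zero (Finset.prod_ne_zero_iff.2 fun i hi => ?_)
      (Finset.prod_ne_zero_iff.2 fun m _ h => ?_)
    · exact (hΦ i (by have := Finset.mem_range.1 hi; omega)).1.ne_zero
    · have := congrArg (eval fun _ => P m 0 + 1) h
      simp at this
  · intro n
    rw [map_mul, map_prod, map_prod]
    rcases lt_or_ge n n1 with h | h
    · rw [Finset.prod_eq_zero (Finset.mem_range.2 h) (f := fun m => eval (P n) (X 0 - C (P m 0)))
        (by simp), mul_zero]
    · have hi : (n - n1) % g < g := Nat.mod_lt _ hg1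
      have h3 := (hΦ _ (hi.le.trans hgN)).2.2 _ (hper ((n - n1) / g))
      have h4 : n1 + (n - n1) / g * g + (n - n1) % g = n := by
        have := Nat.div_add_mod' (n - n1) g
        omega
      rw [h4] at h3
      rw [Finset.prod_eq_zero (Finset.mem_range.2 hi) h3, zero_mul]

end Pool.Agent.KSD
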