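import Pool.Agent.MP_c8dfda_nt.dm.Place

/-! Orbit points of small height lie on few curves. -/

namespace Pool.Agent.KSD

open MvPolynomial Height AdmissibleAbsValues

variable {K : Type*} [Field K] [NumberField K] {e : ℕ} {a0 a1 b : MvPolynomial (Fin 2) K}

theorem height_eval (G : MvPolynomial (Fin 2) K) : ∃ c : ℝ, 0 ≤ c ∧ ∀ (Q : Fin 2 → K) (H : ℝ),
    1 ≤ H → (∀ i, logHeight₁ (Q i) ≤ H) → logHeight₁ (eval Q G) ≤ c * H := by
  induction G using MvPolynomial.induction_on with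
  | C a =>
    refine ⟨logHeight₁ a, zero_le_logHeight₁ a, fun Q H h _ => ?_⟩
    rw [eval_C]
    exact le_mul_of_one_le_right (zero_le_logHeight₁ a) h
  | add p q hp hq =>
    obtain ⟨c, hc, hp⟩ := hp
    obtain ⟨c', hc', hq⟩ := hq
    have h2 : 0 ≤ (totalWeight K : ℝ) * Real.log 2 := by positivity
    refine ⟨totalWeight K * Real.log 2 + c + c', by positivity, fun Q H h hQ => ?_⟩
    rw [map_add]
    have := logHeight₁_add_le (eval Q p) (eval Q q)
    have := hp Q H h hQ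
    have := hq Q H h hQ
    nlinarith
  | mul_X p i hp =>
    obtain ⟨c, hc, hp⟩ := hp
    refine ⟨c + 1, by positivity, fun Q H h hQ => ?_⟩
    rw [map_mul, eval_X]
    have := logHeight₁_mul_le (eval Q p) (Q i)
    have := hp Q H h hQ
    have := hQ i
    linarith

theorem cls_curve (he : 1 ≤ e) (h0 : a0.totalDegree ≤ e) (h1 : a1.totalDegree ≤ e)
    (h2 : b.totalDegree ≤ e) (P : ℕ → Fin 2 → K)
    (hP0 : ∀ n, eval (P n) a0 = eval (P n) b * P (n + 1) 0)
    (hP1 : ∀ n, eval (P n) a1 = eval (P n) b * P (n + 1) 1) (t : Fin 2) (k m : ℕ)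
    (hind : ∀ c : (Fin k → Bool) → K, ∑ ε, C (c ε) * psi e a0 a1 b t ε = 0 → ∀ ε, c ε = 0)
    (w : nonarchAbsVal (K := K))
    (hc : ∀ s, w.1 (a0.coeff s) ≤ 1 ∧ w.1 (a1.coeff s) ≤ 1 ∧ w.1 (b.coeff s) ≤ 1)
    (T : Set ℕ) (Q0 : Fin 2 → K) (hQ0 : ∀ i, w.1 (Q0 i) ≤ 1)
    (hT : ∀ n ∈ T, ∀ i, w.1 (P n i - Q0 i) ≤ 1 / 2)
    (hTb : ∀ n ∈ T, ∀ j < k, 1 ≤ w.1 (eval (P (n + j)) b)) (H : ℝ)
    (hH : ∀ n ∈ T, ∀ j < k, logHeight₁ (P (n + j) t) ≤ H)
    (hnum : totalWeight K * Real.log (2 ^ k).factorial + 2 ^ k * (k * H) <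
      (m * (2 ^ k - m * m) : ℕ) * Real.log 2) :
    ∃ Ψ : MvPolynomial (Fin 2) K, Ψ ≠ 0 ∧ Ψ.totalDegree ≤ k * e ^ k ∧
      ∀ n ∈ T, eval (P n) Ψ = 0 := by
  classical
  have hw := isNonarchimedean _ w.2
  have hpe : ∀ (n : ℕ) (ε : Fin k → Bool), eval (P n) (psi e a0 a1 b t ε) =
      (∏ j : Fin k, eval (P n) (tr e a0 a1 b j).2.2) *
        ∏ j : Fin k, if ε j then P (n + j) t else 1 := fun n ε =>
    psi_eval h0 h1 h2 (aeval (P n)) (fun j => P (n + j)) (fun i => aeval_X _ _)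
      (fun j => hP0 (n + j)) (fun j => hP1 (n + j)) t ε
  have hW : ∀ n ∈ T, ∀ j ≤ k, 1 ≤ w.1 (eval (P n) (tr e a0 a1 b j).2.2) := by
    intro n hn j
    induction j with
    | zero => simp [tr]
    | succ j ih =>
      intro hj
      have h3 : eval (P n) (tr e a0 a1 b (j + 1)).2.2 =
          eval (P n) (tr e a0 a1 b j).2.2 ^ e * eval (P (n + j)) b :=
        (tr_eval h0 h1 h2 (aeval (P n)) (fun j => P (n + j)) (fun i => aeval_X _ _)
          (fun j => hP0 (n + j)) (fun j => hP1 (n + j)) j).2.2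
      rw [h3, map_mul, map_pow]
      exact one_le_mul_of_one_le_of_one_le (one_le_pow₀ (ih (by omega))) (hTb n hn j (by omega))
  obtain ⟨c, hc0, hcr⟩ := exists_rel
    (fun (n : ℕ) (ε : Fin k → Bool) => ∏ j : Fin k, if ε j then P (n + j) t else 1) T (by
    intro n hn
    by_contra hΔ
    have hl := liou w hΔ
    have hh := height_det fun (i : Fin k → Bool) (j : Fin k) => P (n i + j) t
    set Δ := Matrix.det (Matrix.of fun i ε : Fin k → Bool =>
      ∏ j : Fin k, if ε j then P (n i + j) t else 1) with hΔd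
    let φ : MvPolynomial (Fin 2) K →ₐ[K] ((Fin k → Bool) → K) := aeval fun s i => P (n i) s
    have hφ : ∀ G i, φ G i = eval (P (n i)) G := by
      intro G i
      induction G using MvPolynomial.induction_on with
      | C a => simp [φ]
      | add p q hp hq => simp [hp, hq]
      | mul_X p s hp => rw [map_mul, map_mul, Pi.mul_apply, hp]; simp [φ]
    let A := loc hw (fun i => P (n i) 0 - Q0 0) (fun i => P (n i) 1 - Q0 1)
    have hA : ∀ j, φ (tr e a0 a1 b j).1 ∈ A ∧ φ (tr e a0 a1 b j).2.1 ∈ A ∧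
        φ (tr e a0 a1 b j).2.2 ∈ A := by
      intro j
      induction j with
      | zero =>
        refine ⟨?_, ?_, by simp [tr]⟩
        · have := A.add_mem (loc_fst hw _ _) (loc_const hw _ _ (hQ0 0))
          refine (congrArg (· ∈ A) ?_).mp this
          funext i
          simp [tr, φ]
        · have := A.add_mem (loc_snd hw _ _) (loc_const hw _ _ (hQ0 1))
          refine (congrArg (· ∈ A) ?_).mp this
          funext i
          simp [tr, φ]
      | succ j ih =>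
        simp only [tr, map_hz]
        exact ⟨hz_mem A (fun s => loc_const hw _ _ (hc s).1) ih.1 ih.2.1 ih.2.2,
          hz_mem A (fun s => loc_const hw _ _ (hc s).2.1) ih.1 ih.2.1 ih.2.2,
          hz_mem A (fun s => loc_const hw _ _ (hc s).2.2) ih.1 ih.2.1 ih.2.2⟩
    have hd := det_loc hw _ _ (ρ := 1 / 2) (by norm_num) (by norm_num) (fun i => hT _ (hn i) 0)
      (fun i => hT _ (hn i) 1) (fun ε => φ (psi e a0 a1 b t ε)) (fun ε => by
        rw [psi, map_prod]
        refine A.prod_mem fun j _ => ?_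
        split_ifs
        · fin_cases t
          · exact (hA j).1
          · exact (hA j).2.1
        · exact (hA j).2.2) m
    have h3 : (Matrix.of fun ε => φ (psi e a0 a1 b t ε)).det =
        (∏ i, ∏ j : Fin k, eval (P (n i)) (tr e a0 a1 b j).2.2) * Δ := by
      rw [← Matrix.det_transpose, hΔd, ← Matrix.det_mul_column]
      congr 1
      ext i ε
      rw [Matrix.transpose_apply, Matrix.of_apply, hφ, hpe]
      rfl
    rw [h3, map_mul, Fintype.card_fun, Fintype.card_bool, Fintype.card_fin, ← pow_mul] at hd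
    have h4 : 1 ≤ w.1 (∏ i, ∏ j : Fin k, eval (P (n i)) (tr e a0 a1 b j).2.2) := by
      rw [map_prod]
      refine Finset.one_le_prod fun i _ => ?_
      rw [map_prod]
      exact Finset.one_le_prod fun j _ => hW _ (hn i) j j.2.le
    have h5 : w.1 Δ ≤ (1 / 2) ^ (m * (2 ^ k - m * m)) :=
      (le_mul_of_one_le_left (w.1.nonneg _) h4).trans hd
    have h6 := hl.trans (mul_le_mul h5 hh (mulHeight₁_nonneg _) (by positivity))
    have h7 := Real.log_nonneg h6
    have hf : (0 : ℝ) < (2 ^ k).factorial := by exact_mod_cast Nat.factorial_pos _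
    have hp : ∀ i, 0 < ∏ j : Fin k, mulHeight₁ (P (n i + j) t) := fun i =>
      Finset.prod_pos fun _ _ => mulHeight₁_pos _
    rw [Real.log_mul (by positivity) (mul_pos (pow_pos hf _) (Finset.prod_pos fun i _ => hp i)).ne',
      Real.log_mul (pow_pos hf _).ne' (Finset.prod_pos fun i _ => hp i).ne', Real.log_pow,
      Real.log_pow, Real.log_prod fun i _ => (hp i).ne', one_div, Real.log_inv] at h7
    have h8 : ∑ i, Real.log (∏ j : Fin k, mulHeight₁ (P (n i + j) t)) ≤ 2 ^ k * (k * H) := by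
      refine (Finset.sum_le_card_nsmul _ _ (k * H) fun i _ => ?_).trans (by simp)
      rw [Real.log_prod fun _ _ => mulHeight₁_ne_zero _]
      exact (Finset.sum_le_card_nsmul Finset.univ _ H fun (j : Fin k) _ =>
        hH _ (hn i) j j.2).trans (by simp)
    linarith)
  refine ⟨∑ ε, C (c ε) * psi e a0 a1 b t ε, fun h => hc0 (funext (hind c h)), ?_, fun n hn => ?_⟩
  · refine totalDegree_finsetSum_le fun ε _ => (totalDegree_mul _ _).trans ?_
    rw [totalDegree_C, zero_add]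
    exact deg_psi he h0 h1 h2 t ε
  · rw [map_sum, ← mul_zero (∏ j : Fin k, eval (P n) (tr e a0 a1 b j).2.2), ← hcr n hn,
      Finset.mul_sum]
    refine Finset.sum_congr rfl fun ε _ => ?_
    rw [map_mul, eval_C, hpe]
    ring

theorem good_place {α β : Type*} (S : Finset α) (W : Finset β) (hW : W.Nonempty)
    (bad : β → α → Prop) [∀ w n, Decidable (bad w n)]
    (h : ∀ n ∈ S, 2 * (W.filter fun w => bad w n).card ≤ W.card) :
    ∃ w ∈ W, S.card ≤ 2 * (S.filter fun n => ¬ bad w n).card := by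
  have h1 : ∑ w ∈ W, 2 * (S.filter fun n => bad w n).card ≤ ∑ _w ∈ W, S.card := by
    rw [← Finset.mul_sum]
    have := Finset.sum_card_bipartiteAbove_eq_sum_card_bipartiteBelow (s := W) (t := S) bad
    simp only [Finset.bipartiteAbove, Finset.bipartiteBelow] at this
    rw [this, Finset.mul_sum]
    refine (Finset.sum_le_card_nsmul _ _ _ h).trans ?_
    simp [mul_comm]
  obtain ⟨w, hw, h2⟩ := Finset.exists_le_of_sum_le hW h1
  have := Finset.card_filter_add_card_filter_not (s := S) (fun n => bad w n)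
  exact ⟨w, hw, by omega⟩

theorem big_fibre {α β : Type*} [Fintype β] [DecidableEq β] [Nonempty β] (S : Finset α)
    (f : α → β) : ∃ c, S.card ≤ Fintype.card β * (S.filter fun n => f n = c).card := by
  obtain ⟨c, -, hc⟩ := Finset.exists_max_image Finset.univ
    (fun c => (S.filter fun n => f n = c).card) Finset.univ_nonempty
  refine ⟨c, ?_⟩
  rw [Finset.card_eq_sum_card_fiberwise (f := f) (t := Finset.univ) fun _ _ => Finset.mem_univ _]
  exact Finset.sum_le_card_nsmul _ _ _ hc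

theorem card_bad_fam {α : Type*} (W : Finset (nonarchAbsVal (K := K))) {q : ℕ}
    (hW : ∀ w ∈ W, Pl w q) (s : Finset α) (z : α → K) [∀ w : nonarchAbsVal (K := K), Decidable (∃ a ∈ s, 1 < w.1 (z a))] :
    (W.filter fun w => ∃ a ∈ s, 1 < w.1 (z a)).card * Real.log 2 ≤ ∑ a ∈ s, logHeight₁ (z a) := by
  classical
  have h1 : (W.filter fun w => ∃ a ∈ s, 1 < w.1 (z a)) ⊆
      s.biUnion fun a => W.filter fun w => 1 < w.1 (z a) := by
    intro w hw
    obtain ⟨h, a, ha, h'⟩ := Finset.mem_filter.1 hw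
    exact Finset.mem_biUnion.2 ⟨a, ha, Finset.mem_filter.2 ⟨h, h'⟩⟩
  have h2 : ((W.filter fun w => ∃ a ∈ s, 1 < w.1 (z a)).card : ℝ) ≤
      ∑ a ∈ s, ((W.filter fun w => 1 < w.1 (z a)).card : ℝ) := by
    exact_mod_cast (Finset.card_le_card h1).trans Finset.card_biUnion_le
  refine (mul_le_mul_of_nonneg_right h2 (by positivity)).trans ?_
  rw [Finset.sum_mul]
  refine Finset.sum_le_sum fun a _ => card_bad _ _ fun w hw => ?_
  obtain ⟨h, h'⟩ := Finset.mem_filter.1 hw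
  have h3 := (hW w h).1 (z a)⁻¹ (by rw [map_inv₀]; exact inv_lt_one_of_one_lt₀ h')
  rw [map_inv₀, one_div] at h3
  exact (inv_le_inv₀ (by linarith) two_pos).1 h3

theorem cover (he : 1 ≤ e) (h0 : a0.totalDegree ≤ e) (h1 : a1.totalDegree ≤ e)
    (h2 : b.totalDegree ≤ e) : ∃ c : ℝ, 0 ≤ c ∧ ∀ (P : ℕ → Fin 2 → K), (∀ n, eval (P n) b ≠ 0) →
    (∀ n, eval (P n) a0 = eval (P n) b * P (n + 1) 0) →
    (∀ n, eval (P n) a1 = eval (P n) b * P (n + 1) 1) → ∀ (t : Fin 2) (k m : ℕ), 1 ≤ k →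
    (∀ c : (Fin k → Bool) → K, ∑ ε, C (c ε) * psi e a0 a1 b t ε = 0 → ∀ ε, c ε = 0) →
    ∀ H : ℝ, 1 ≤ H → totalWeight K * Real.log (2 ^ k).factorial + 2 ^ k * (k * H) <
      (m * (2 ^ k - m * m) : ℕ) * Real.log 2 → ∀ Q : ℕ, c * (k * H) ≤ Q.primeCounting → 2 ≤ Q →
    ∀ S : Finset ℕ, S.Nonempty → (∀ n ∈ S, ∀ j < k, ∀ i, logHeight₁ (P (n + j) i) ≤ H) →
    ∃ T ⊆ S, S.card ≤ (2 * (Q ^ Module.finrank ℚ K) ^ 2 * (k * e ^ k)) * T.card ∧
      ∃ Φ : MvPolynomial (Fin 2) K, Irreducible Φ ∧ Φ.totalDegree ≤ k * e ^ k ∧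
        ∀ n ∈ T, eval (P n) Φ = 0 := by
  classical
  obtain ⟨cb, hcb, hb'⟩ := height_eval b
  let Cf : Finset K := a0.coeffs ∪ a1.coeffs ∪ b.coeffs
  have hc0 : 0 ≤ ∑ x ∈ Cf, logHeight₁ x := Finset.sum_nonneg fun _ _ => zero_le_logHeight₁ _
  refine ⟨4 * (∑ x ∈ Cf, logHeight₁ x + 2 + cb), by positivity, ?_⟩
  intro P hb hP0 hP1 t k m hk hind H hH hnum Q hQ hQ2 S hS hSH
  obtain ⟨W, hWc, hW⟩ := exists_places (K := K) Q
  set q := Q ^ Module.finrank ℚ K with hq
  have hWne : W.Nonempty := by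
    rw [← Finset.card_pos, hWc, Nat.pos_iff_ne_zero, ne_eq, Nat.primeCounting_eq_zero_iff]
    omega
  let z : ℕ → K ⊕ Fin 2 ⊕ ℕ → K := fun n =>
    Sum.elim id (Sum.elim (P n) fun j => (eval (P (n + j)) b)⁻¹)
  let s : Finset (K ⊕ Fin 2 ⊕ ℕ) := Cf.disjSum (Finset.univ.disjSum (Finset.range k))
  obtain ⟨w, hwW, hS1⟩ := good_place S W hWne (fun w n => ∃ a ∈ s, 1 < w.1 (z n a)) (by
    intro n hn
    have h3 := card_bad_fam W hW s (z n)
    simp only [s, Finset.sum_disjSum, z, Sum.elim_inl, Sum.elim_inr, id, Fin.sum_univ_two,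
      logHeight₁_inv] at h3
    have h4 : ∑ j ∈ Finset.range k, logHeight₁ (eval (P (n + j)) b) ≤ k * (cb * H) :=
      (Finset.sum_le_card_nsmul _ _ (cb * H) fun j hj =>
        hb' _ H hH (hSH n hn j (Finset.mem_range.1 hj))).trans (by simp)
    have h5 := hSH n hn 0 hk 0
    have h6 := hSH n hn 0 hk 1
    rw [add_zero] at h5 h6
    have hk' : (1 : ℝ) ≤ k := by exact_mod_cast hk
    have h7 : H ≤ k * H := le_mul_of_one_le_left (by linarith) hk'
    have h8 : ∑ x ∈ Cf, logHeight₁ x ≤ (∑ x ∈ Cf, logHeight₁ x) * (k * H) :=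
      le_mul_of_one_le_right hc0 (hH.trans h7)
    have h9 := Real.log_two_gt_d9
    rw [hWc, ← Nat.cast_le (α := ℝ)]
    push_cast
    simp only [s, z]
    set x : ℝ := ((W.filter fun w => ∃ a ∈ Cf.disjSum (Finset.univ.disjSum (Finset.range k)),
      1 < w.1 (Sum.elim id (Sum.elim (P n) fun j => (eval (P (n + j)) b)⁻¹) a)).card : ℝ)
    have hx : 0 ≤ x := Nat.cast_nonneg _
    nlinarith)
  obtain ⟨hgap, cls, hcls⟩ := hW w hwW
  have : Nonempty (Fin q) := ⟨cls 0⟩
  obtain ⟨c, hT⟩ := big_fibre (S.filter fun n => ¬ ∃ a ∈ s, 1 < w.1 (z n a))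
    fun n => (cls (P n 0), cls (P n 1))
  rw [Fintype.card_prod, Fintype.card_fin] at hT
  set T := (S.filter fun n => ¬ ∃ a ∈ s, 1 < w.1 (z n a)).filter
    fun n => (cls (P n 0), cls (P n 1)) = c with hTd
  have hTm : ∀ n ∈ T, n ∈ S ∧ (∀ a ∈ s, w.1 (z n a) ≤ 1) ∧ (cls (P n 0), cls (P n 1)) = c := by
    intro n hn
    have h3 := Finset.mem_filter.1 hn
    have h4 := Finset.mem_filter.1 h3.1
    exact ⟨h4.1, fun a ha => not_lt.1 fun h => h4.2 ⟨a, ha, h⟩, h3.2⟩
  have hTne : T.Nonempty := by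
    rw [← Finset.card_pos] at hS ⊢
    by_contra h
    rw [show T.card = 0 by omega, mul_zero] at hT
    omega
  obtain ⟨n1, hn1⟩ := hTne
  have hint : ∀ n ∈ T, ∀ i, w.1 (P n i) ≤ 1 := fun n hn i =>
    (hTm n hn).2.1 (Sum.inr (Sum.inl i)) (by simp [s])
  have hcf : ∀ (G : MvPolynomial (Fin 2) K), G.coeffs ⊆ Cf → ∀ u, w.1 (G.coeff u) ≤ 1 := by
    intro G hG u
    by_cases h : G.coeff u = 0
    · simp [h]
    · exact (hTm n1 hn1).2.1 (Sum.inl (G.coeff u))
        (by simpa [s] using hG (coeff_mem_coeffs u h))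
  obtain ⟨Ψ, hΨ0, hΨd, hΨ⟩ := cls_curve he h0 h1 h2 P hP0 hP1 t k m hind w
    (fun u => ⟨hcf a0 (Finset.subset_union_left.trans Finset.subset_union_left) u,
      hcf a1 (Finset.subset_union_right.trans Finset.subset_union_left) u,
      hcf b Finset.subset_union_right u⟩) T (P n1) (hint n1 hn1)
    (by
      intro n hn i
      refine hgap _ (hcls _ _ (hint n hn i) (hint n1 hn1 i) ?_)
      have := (hTm n hn).2.2.trans (hTm n1 hn1).2.2.symm
      fin_cases i
      · exact congrArg Prod.fst this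
      · exact congrArg Prod.snd this)
    (by
      intro n hn j hj
      have := (hTm n hn).2.1 (Sum.inr (Sum.inr j)) (by simpa [s] using hj)
      simp only [z, Sum.elim_inr, map_inv₀] at this
      exact (inv_le_one₀ (w.1.pos (hb _))).1 this)
    H (fun n hn j hj => hSH n (hTm n hn).1 j hj t) hnum
  obtain ⟨T', hT', hc', hΦ⟩ := irr_part P _ Ψ hΨ0 hΨd T ⟨n1, hn1⟩ hΨ
  refine ⟨T', fun n hn => (hTm n (hT' hn)).1, ?_, hΦ⟩
  calc S.card ≤ 2 * (q * q * T.card) := hS1.trans (Nat.mul_le_mul_left _ hT)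
    _ ≤ 2 * (q * q * (k * e ^ k * T'.card)) := by gcongr
    _ = _ := by ring

end Pool.Agent.KSD
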