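import Mathlib

namespace Pool.Agent.KSD

/-- The degree of the rational self-map of the projective plane with affine coordinates
`g 0, g 1`: the least `e` such that `g i = U i / W` with `U 0, U 1, W` of total degree at most
`e`. -/
noncomputable def ratDeg {K : Type} [Field K]
    (g : Fin 2 → FractionRing (MvPolynomial (Fin 2) K)) : ℕ :=
  sInf {e : ℕ | ∃ (U : Fin 2 → MvPolynomial (Fin 2) K) (W : MvPolynomial (Fin 2) K),
    W ≠ 0 ∧ W.totalDegree ≤ e ∧ ∀ i, (U i).totalDegree ≤ e ∧
      g i * algebraMap (MvPolynomial (Fin 2) K) (FractionRing (MvPolynomial (Fin 2) K)) W =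
        algebraMap (MvPolynomial (Fin 2) K) (FractionRing (MvPolynomial (Fin 2) K)) (U i)}

end Pool.Agent.KSD
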