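import Pool.Agent.MP_c8dfda_nt.dm.Ind

/-! The determinant: ultrametric upper bound, height bound, and the curve through a class. -/

namespace Pool.Agent.KSD

open MvPolynomial Height AdmissibleAbsValues

section Loc

variable {K : Type*} [Field K]

theorem na_sum {w : AbsoluteValue K ℝ} (hw : IsNonarchimedean w) {α : Type*} (s : Finset α)
    (x : α → K) {c : ℝ} (hc : 0 ≤ c) (h : ∀ a ∈ s, w (x a) ≤ c) : w (∑ a ∈ s, x a) ≤ c := by
  classical
  induction s using Finset.induction with
  | empty => simpa using hc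
  | insert a s ha ih =>
    rw [Finset.sum_insert ha]
    exact (hw _ _).trans (max_le (h a (Finset.mem_insert_self _ _))
      (ih fun i hi => h i (Finset.mem_insert_of_mem hi)))

/-- The ring of integers of a nonarchimedean absolute value. -/
def ints {w : AbsoluteValue K ℝ} (hw : IsNonarchimedean w) : Subring K where
  carrier := {x | w x ≤ 1}
  zero_mem' := by simp
  one_mem' := by simp
  add_mem' := fun h1 h2 => (hw _ _).trans (max_le h1 h2)
  neg_mem' := fun h => by simpa using h
  mul_mem' := fun {x y} h1 h2 => by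
    change w (x * y) ≤ 1
    rw [map_mul]
    exact mul_le_one₀ h1 (w.nonneg _) h2

theorem abv_det_le {ι : Type*} [Fintype ι] [DecidableEq ι] (v : AbsoluteValue K ℝ)
    (A : Matrix ι ι K) {c : ℝ} (h : ∀ π : Equiv.Perm ι, v (∏ i, A (π i) i) ≤ c) :
    v A.det ≤ (Fintype.card ι).factorial * c := by
  rw [Matrix.det_apply']
  refine (v.sum_le _ _).trans ((Finset.sum_le_card_nsmul _ _ c fun π _ => ?_).trans ?_)
  · rw [map_mul]
    rcases Int.units_eq_one_or (Equiv.Perm.sign π) with h1 | h1 <;> simpa [h1] using h π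
  · simp [Fintype.card_perm]

theorem na_det_le {ι : Type*} [Fintype ι] [DecidableEq ι] {w : AbsoluteValue K ℝ}
    (hw : IsNonarchimedean w) (A : Matrix ι ι K) {c : ℝ} (hc : 0 ≤ c)
    (h : ∀ π : Equiv.Perm ι, w (∏ i, A (π i) i) ≤ c) : w A.det ≤ c := by
  rw [Matrix.det_apply']
  refine na_sum hw _ _ hc fun π _ => ?_
  rw [map_mul]
  rcases Int.units_eq_one_or (Equiv.Perm.sign π) with h1 | h1 <;> simpa [h1] using h π

theorem det_split {ι : Type*} [Fintype ι] [DecidableEq ι] {w : AbsoluteValue K ℝ}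
    (hw : IsNonarchimedean w) (V : Submodule K (ι → K)) {μ : ℕ} (hV : Module.finrank K V ≤ μ)
    (L R : ι → ι → K) (hL : ∀ j, L j ∈ V) (hL1 : ∀ j i, w (L j i) ≤ 1) {τ : ℝ} (h0 : 0 ≤ τ)
    (h1 : τ ≤ 1) (hR : ∀ j i, w (R j i) ≤ τ) :
    w (Matrix.det (Matrix.of (L + R))) ≤ τ ^ (Fintype.card ι - μ) := by
  change w (Matrix.detRowAlternating (L + R)) ≤ _
  rw [AlternatingMap.map_add_univ]
  refine na_sum hw _ _ (pow_nonneg h0 _) fun s _ => ?_
  by_cases hs : s.card ≤ μ
  · change w (Matrix.det (Matrix.of (s.piecewise L R))) ≤ _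
    rw [← Matrix.det_transpose]
    refine na_det_le hw _ (pow_nonneg h0 _) fun π => ?_
    rw [map_prod]
    have : ∏ i, w ((Matrix.of (s.piecewise L R)).transpose (π i) i) ≤
        ∏ i, (if i ∈ s then 1 else τ) := by
      refine Finset.prod_le_prod (fun _ _ => w.nonneg _) fun i _ => ?_
      rw [Matrix.transpose_apply, Matrix.of_apply]
      split_ifs with hi
      · rw [Finset.piecewise_eq_of_mem _ _ _ hi]; exact hL1 _ _
      · rw [Finset.piecewise_eq_of_notMem _ _ _ hi]; exact hR _ _
    refine this.trans ?_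
    rw [Finset.prod_ite, Finset.prod_const_one, one_mul, Finset.prod_const]
    refine pow_le_pow_of_le_one h0 h1 ?_
    have := Finset.card_filter_add_card_filter_not (s := Finset.univ) (fun i => i ∈ s)
    rw [Finset.filter_univ_mem, Finset.card_univ] at this
    omega
  · rw [AlternatingMap.map_linearDependent, map_zero]
    · exact pow_nonneg h0 _
    · intro hli
      have h2 : LinearIndependent K fun j : s => (⟨L j, hL j⟩ : V) := by
        refine LinearIndependent.of_comp V.subtype ?_
        have h3 := hli.comp (fun j : s => (j : ι)) Subtype.val_injective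
        have h4 : (V.subtype ∘ fun j : s => (⟨L j, hL j⟩ : V)) =
            s.piecewise L R ∘ fun j : s => (j : ι) := by
          funext j
          simp only [Function.comp, Submodule.subtype_apply]
          rw [Finset.piecewise_eq_of_mem _ _ _ j.2]
        rw [h4]
        exact h3
      have := h2.fintype_card_le_finrank
      rw [Fintype.card_coe] at this
      omega

/-- Integral polynomials in two small functions. -/
noncomputable def loc {ι : Type*} {w : AbsoluteValue K ℝ} (hw : IsNonarchimedean w)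
    (u v : ι → K) : Subring (ι → K) :=
  (eval₂Hom ((algebraMap K (ι → K)).comp (ints hw).subtype) ![u, v] :
    MvPolynomial (Fin 2) (ints hw) →+* (ι → K)).range

theorem loc_const {ι : Type*} {w : AbsoluteValue K ℝ} (hw : IsNonarchimedean w)
    (u v : ι → K) {c : K} (hc : w c ≤ 1) : algebraMap K (ι → K) c ∈ loc hw u v :=
  ⟨C ⟨c, hc⟩, by simp⟩

theorem loc_fst {ι : Type*} {w : AbsoluteValue K ℝ} (hw : IsNonarchimedean w)
    (u v : ι → K) : u ∈ loc hw u v := ⟨X 0, by simp⟩

theorem loc_snd {ι : Type*} {w : AbsoluteValue K ℝ} (hw : IsNonarchimedean w)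
    (u v : ι → K) : v ∈ loc hw u v := ⟨X 1, by simp⟩

theorem det_loc {ι : Type*} [Fintype ι] [DecidableEq ι] {w : AbsoluteValue K ℝ}
    (hw : IsNonarchimedean w) (u v : ι → K) {ρ : ℝ} (h0 : 0 ≤ ρ) (h1 : ρ ≤ 1)
    (hu : ∀ i, w (u i) ≤ ρ) (hv : ∀ i, w (v i) ≤ ρ) (f : ι → ι → K) (hf : ∀ j, f j ∈ loc hw u v)
    (m : ℕ) : w (Matrix.det (Matrix.of f)) ≤ (ρ ^ m) ^ (Fintype.card ι - m * m) := by
  classical
  let g : Fin m × Fin m → ι → K := fun p => u ^ (p.1 : ℕ) * v ^ (p.2 : ℕ)
  let V := Submodule.span K (Set.range g)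
  have hV : Module.finrank K V ≤ m * m := (finrank_range_le_card g).trans (by simp)
  have key : ∀ j, ∃ L R : ι → K, f j = L + R ∧ L ∈ V ∧ (∀ i, w (L i) ≤ 1) ∧
      ∀ i, w (R i) ≤ ρ ^ m := by
    intro j
    obtain ⟨G, hG⟩ := hf j
    rw [coe_eval₂Hom, eval₂_eq'] at hG
    let T : (Fin 2 →₀ ℕ) → ι → K := fun s => (G.coeff s).1 • (u ^ s 0 * v ^ s 1)
    have hT : f j = ∑ s ∈ G.support, T s := by
      rw [← hG]
      refine Finset.sum_congr rfl fun s _ => ?_
      simp only [T]
      rw [Fin.prod_univ_two, Algebra.smul_def]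
      rfl
    have hTw : ∀ s i, w (T s i) ≤ ρ ^ (s 0 + s 1) := by
      intro s i
      simp only [T, Pi.smul_apply, Pi.mul_apply, Pi.pow_apply, smul_eq_mul, map_mul, map_pow]
      rw [pow_add]
      refine (mul_le_of_le_one_left (by positivity) (G.coeff s).2).trans ?_
      exact mul_le_mul (pow_le_pow_left₀ (w.nonneg _) (hu i) _)
        (pow_le_pow_left₀ (w.nonneg _) (hv i) _) (by positivity) (by positivity)
    refine ⟨∑ s ∈ G.support.filter (fun s => s 0 < m ∧ s 1 < m), T s,
      ∑ s ∈ G.support.filter (fun s => ¬ (s 0 < m ∧ s 1 < m)), T s, ?_, ?_, ?_, ?_⟩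
    · rw [hT, Finset.sum_filter_add_sum_filter_not]
    · refine V.sum_mem fun s hs => V.smul_mem _ (Submodule.subset_span ?_)
      have := (Finset.mem_filter.1 hs).2
      exact ⟨(⟨s 0, this.1⟩, ⟨s 1, this.2⟩), rfl⟩
    · intro i
      rw [Finset.sum_apply]
      exact na_sum hw _ _ zero_le_one fun s _ => (hTw s i).trans (pow_le_one₀ h0 h1)
    · intro i
      rw [Finset.sum_apply]
      refine na_sum hw _ _ (pow_nonneg h0 _) fun s hs => (hTw s i).trans ?_
      have := (Finset.mem_filter.1 hs).2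
      exact pow_le_pow_of_le_one h0 h1 (by omega)
  choose L R h2 h3 h4 h5 using key
  have : f = L + R := funext h2
  rw [this]
  exact det_split hw V hV L R h3 h4 (pow_nonneg h0 _) (pow_le_one₀ h0 h1) h5

theorem exists_rel {ι α : Type*} [Fintype ι] [DecidableEq ι] (r : α → ι → K) (T : Set α)
    (h : ∀ n : ι → α, (∀ i, n i ∈ T) → Matrix.det (Matrix.of fun i => r (n i)) = 0) :
    ∃ c : ι → K, c ≠ 0 ∧ ∀ n ∈ T, ∑ j, c j * r n j = 0 := by
  have hne : Submodule.span K (r '' T) ≠ ⊤ := by
    intro htop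
    obtain ⟨s, hs, hsp, hli⟩ := exists_linearIndependent K (r '' T)
    rw [htop] at hsp
    let B := Module.Basis.mk hli (by rw [Subtype.range_coe, hsp])
    let B' := B.reindex (B.indexEquiv (Pi.basisFun K ι))
    have hB' : ∀ i, ∃ n ∈ T, r n = B' i := by
      intro i
      have : B' i ∈ r '' T := by
        simp only [B', B, Module.Basis.coe_reindex, Function.comp, Module.Basis.coe_mk]
        exact hs (Subtype.coe_prop _)
      exact this
    choose n hn hn' using hB'
    have h1 := h n hn
    have h2 : LinearIndependent K (Matrix.of fun i => r (n i)).row := by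
      have : (Matrix.of fun i => r (n i)).row = B' := funext hn'
      rw [this]
      exact B'.linearIndependent
    rw [Matrix.linearIndependent_rows_iff_isUnit, Matrix.isUnit_iff_isUnit_det, h1] at h2
    exact not_isUnit_zero h2
  obtain ⟨φ, hφ, hle⟩ := Submodule.exists_le_ker_of_lt_top _ hne.lt_top
  refine ⟨fun j => φ (Pi.single j 1), fun h0 => hφ ?_, fun n hn => ?_⟩
  · refine (Pi.basisFun K ι).ext fun j => ?_
    simpa using congrFun h0 j
  · have h1 : φ (r n) = 0 := hle (Submodule.subset_span ⟨n, hn, rfl⟩)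
    rw [← h1, LinearMap.pi_apply_eq_sum_univ]
    refine Finset.sum_congr rfl fun j _ => ?_
    rw [smul_eq_mul, mul_comm]
    refine congrArg (fun f => r n j * φ f) ?_
    funext i
    simp [Pi.single_apply, eq_comm]

end Loc

section Glob

variable {K : Type*} [Field K] [AdmissibleAbsValues K]

open Finset Multiset in
theorem lg {α : Type*} (s : Finset α) (z : α → K) (x : K) {c : ℝ} (hc : 1 ≤ c)
    (h1 : ∀ v : AbsoluteValue K ℝ, v x ≤ c * ∏ a ∈ s, max (v (z a)) 1)
    (h2 : ∀ v : AbsoluteValue K ℝ, IsNonarchimedean v → v x ≤ ∏ a ∈ s, max (v (z a)) 1) :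
    mulHeight₁ x ≤ c ^ totalWeight K * ∏ a ∈ s, mulHeight₁ (z a) := by
  simp only [mulHeight₁_eq, totalWeight]
  rw [prod_mul_distrib, ← prod_replicate, ← map_const, ← finprod_prod_comm _ _ (by fun_prop),
    ← prod_map_prod, ← mul_assoc, ← prod_map_mul]
  simp only [Function.const_apply]
  gcongr
  · exact finprod_nonneg fun _ ↦ by positivity
  · exact prod_map_nonneg fun _ h ↦ by positivity
  · exact prod_map_le_prod_map₀ _ _ (fun _ _ ↦ by positivity) fun v _ ↦ max_le (h1 v)
      (one_le_mul_of_one_le_of_one_le hc (s.one_le_prod fun _ _ ↦ le_max_right ..))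
  · exact finprod_le_finprod (by fun_prop) (fun _ ↦ by grind) (by fun_prop) <|
      fun v ↦ max_le (h2 v.1 (isNonarchimedean _ v.prop)) (s.one_le_prod fun _ _ ↦ le_max_right ..)

theorem fin_max (a : K) :
    (Function.mulSupport fun v : nonarchAbsVal (K := K) => max (v.1 a) 1).Finite := by
  by_cases ha : a = 0
  · simp [ha]
  · refine Set.Finite.subset (hasFiniteMulSupport ha) fun v hv => ?_
    intro h
    apply hv
    have h' : v.1 a = 1 := h
    simp [h']

theorem prod_max_le (S : Finset (nonarchAbsVal (K := K))) (a : K) :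
    ∏ w ∈ S, max (w.1 a) 1 ≤ mulHeight₁ a := by
  classical
  rw [mulHeight₁_eq]
  refine le_trans ?_ (le_mul_of_one_le_left (finprod_nonneg fun _ => by positivity)
    (Multiset.one_le_prod_map fun _ _ => le_max_right ..))
  rw [finprod_eq_prod_of_mulSupport_subset (s := (fin_max a).toFinset ∪ S) _ (by
    intro v hv; simp only [Finset.coe_union, Set.Finite.coe_toFinset]; exact Or.inl hv)]
  exact Finset.prod_le_prod_of_subset_of_one_le Finset.subset_union_right
    (fun _ _ => by positivity) fun _ _ _ => le_max_right ..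

theorem liou (w : nonarchAbsVal (K := K)) {a : K} (ha : a ≠ 0) : 1 ≤ w.1 a * mulHeight₁ a := by
  have h := prod_max_le {w} a⁻¹
  rw [Finset.prod_singleton, mulHeight₁_inv, map_inv₀] at h
  have h0 := w.1.pos ha
  rw [← inv_le_iff_one_le_mul₀' h0]
  exact (le_max_left _ _).trans h

theorem card_bad (S : Finset (nonarchAbsVal (K := K))) (a : K) (h : ∀ w ∈ S, 2 ≤ w.1 a) :
    S.card * Real.log 2 ≤ logHeight₁ a := by
  rw [← Real.log_pow, logHeight₁_eq_log_mulHeight₁]
  refine Real.log_le_log (by positivity) (le_trans ?_ (prod_max_le S a))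
  rw [← Finset.prod_const]
  exact Finset.prod_le_prod (fun _ _ => by positivity) fun w hw => (h w hw).trans (le_max_left ..)

theorem height_det {k : ℕ} (z : (Fin k → Bool) → Fin k → K) :
    mulHeight₁ (Matrix.det (Matrix.of fun i ε : Fin k → Bool =>
      ∏ j, if ε j then z i j else 1)) ≤
      ((2 ^ k).factorial : ℝ) ^ totalWeight K * ∏ i, ∏ j, mulHeight₁ (z i j) := by
  classical
  have key : ∀ (v : AbsoluteValue K ℝ) (π : Equiv.Perm (Fin k → Bool)),
      v (∏ ε, (Matrix.of fun i ε : Fin k → Bool => ∏ j, if ε j then z i j else 1) (π ε) ε) ≤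
        ∏ p : (Fin k → Bool) × Fin k, max (v (z p.1 p.2)) 1 := by
    intro v π
    rw [Fintype.prod_prod_type, map_prod,
      ← Equiv.prod_comp π fun i => ∏ j, max (v (z i j)) 1]
    refine Finset.prod_le_prod (fun _ _ => v.nonneg _) fun ε _ => ?_
    rw [Matrix.of_apply, map_prod]
    refine Finset.prod_le_prod (fun _ _ => v.nonneg _) fun j _ => ?_
    split_ifs
    · exact le_max_left _ _
    · rw [map_one]; exact le_max_right _ _
  have := lg Finset.univ (fun p : (Fin k → Bool) × Fin k => z p.1 p.2) _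
    (c := ((2 ^ k).factorial : ℝ)) (by exact_mod_cast Nat.factorial_pos _)
    (fun v => by simpa using abv_det_le v _ (key v))
    (fun v hv => na_det_le hv _ (by positivity) (key v))
  rwa [Fintype.prod_prod_type] at this

end Glob

end Pool.Agent.KSD
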