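import Pool.Agent.MP_c8dfda_nt.dm.Cover

/-! Polynomial growth of heights along dense orbits of non-birational plane maps. -/

namespace Pool.Agent.KSD

open MvPolynomial Height Filter

theorem ev_lin (c : ℝ) : ∀ᶠ r : ℕ in atTop, c * (r + 1) ≤ 2 ^ r := by
  have h := tendsto_pow_const_div_const_pow_of_one_lt 1 (r := 2) one_lt_two
  have h1 : ∀ᶠ r : ℕ in atTop, (r : ℝ) ^ 1 / 2 ^ r < 1 / (2 * |c| + 1) :=
    h.eventually (gt_mem_nhds (by positivity))
  filter_upwards [h1, eventually_ge_atTop 1] with r hr h1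
  rw [pow_one, div_lt_div_iff₀ (by positivity) (by positivity), one_mul] at hr
  have h2 : (1 : ℝ) ≤ r := by exact_mod_cast h1
  have h3 := le_abs_self c
  have h4 := abs_nonneg c
  nlinarith

theorem num_det (D r : ℕ) (h : (16 * (D + 1) : ℝ) * (r + 1) ≤ 2 ^ r) :
    D * Real.log (2 ^ (4 * r + 2)).factorial + 2 ^ (4 * r + 2) * ((4 * r + 2 : ℕ) * (2 : ℝ) ^ r) <
      (4 ^ r * (2 ^ (4 * r + 2) - 4 ^ r * 4 ^ r) : ℕ) * Real.log 2 := by
  have e1 : 2 ^ (4 * r + 2) - 4 ^ r * 4 ^ r = 3 * (4 ^ r * 4 ^ r) := by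
    have : 2 ^ (4 * r + 2) = 4 * (4 ^ r * 4 ^ r) := by
      rw [← mul_pow, pow_add, pow_mul]; ring
    omega
  have h1 : Real.log (2 ^ (4 * r + 2)).factorial ≤ 2 ^ (4 * r + 2) * (4 * r + 2) := by
    have h2 : ((2 ^ (4 * r + 2)).factorial : ℝ) ≤ (2 ^ (4 * r + 2)) ^ (2 ^ (4 * r + 2)) := by
      exact_mod_cast Nat.factorial_le_pow _
    refine (Real.log_le_log (by exact_mod_cast Nat.factorial_pos _) h2).trans ?_
    rw [Real.log_pow, Real.log_pow]
    push_cast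
    have := Real.log_two_lt_d9
    refine mul_le_mul_of_nonneg_left (mul_le_of_le_one_right (by positivity) (by linarith))
      (by positivity)
  rw [e1]
  push_cast
  have e2 : (4 : ℝ) ^ r = 2 ^ r * 2 ^ r := by rw [← mul_pow]; norm_num
  have e3 : (2 : ℝ) ^ (4 * r + 2) = 4 * (4 ^ r * 4 ^ r) := by
    rw [← mul_pow, pow_add, pow_mul]; ring
  rw [e3] at h1 ⊢
  have hu : (1 : ℝ) ≤ 2 ^ r := one_le_pow₀ one_le_two
  have hE : (0 : ℝ) < 4 ^ r * 4 ^ r := by positivity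
  have hl := Real.log_two_gt_d9
  have hD : (0 : ℝ) ≤ D := Nat.cast_nonneg _
  have hr : (0 : ℝ) ≤ r := Nat.cast_nonneg _
  have h3 : 4 * (4 * r + 2) * (D + 2 ^ r) < (4 : ℝ) ^ r * 3 * Real.log 2 := by
    rw [e2]
    have h4 : (D : ℝ) + 2 ^ r ≤ (D + 1) * 2 ^ r := by nlinarith
    have h5 : 4 * (4 * r + 2) * ((D : ℝ) + 1) ≤ 2 ^ r := by nlinarith
    have h6 : 4 * (4 * r + 2) * ((D : ℝ) + 2 ^ r) ≤ 2 ^ r * 2 ^ r := by
      calc _ ≤ 4 * (4 * r + 2) * (((D : ℝ) + 1) * 2 ^ r) := by gcongr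
        _ = 4 * (4 * r + 2) * ((D : ℝ) + 1) * 2 ^ r := by ring
        _ ≤ _ := by gcongr
    have h7 : (0 : ℝ) < 2 ^ r * 2 ^ r := by positivity
    nlinarith
  have h8 := mul_le_mul_of_nonneg_left h1 hD
  have h9 := mul_lt_mul_of_pos_left h3 hE
  nlinarith

theorem num_pi (c : ℝ) (hc : 0 ≤ c) (r : ℕ) (hr : 1 ≤ r) (h : (12 * c + 4) * (r + 1) ≤ 2 ^ r) :
    c * ((4 * r + 2 : ℕ) * (2 : ℝ) ^ r) ≤ (8 ^ r).primeCounting := by
  refine le_trans ?_ (Chebyshev.pi_ge (8 ^ r))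
  have hr' : (1 : ℝ) ≤ r := by exact_mod_cast hr
  have hl : 0 < Real.log 2 := Real.log_pos one_lt_two
  have hu : (1 : ℝ) ≤ 2 ^ r := one_le_pow₀ one_le_two
  have e1 : ((8 ^ r : ℕ) : ℝ) = 2 ^ (3 * r) := by push_cast; rw [pow_mul]; norm_num
  have e2 : (2 : ℝ) ^ (3 * r) = 2 ^ r * 2 ^ r * 2 ^ r := by ring
  have h1 : Real.log (2 ^ (3 * r) + 1) ≤ (3 * r + 1) * Real.log 2 := by
    have : (2 : ℝ) ^ (3 * r) + 1 ≤ 2 ^ (3 * r + 1) := by
      have : (1 : ℝ) ≤ 2 ^ (3 * r) := one_le_pow₀ one_le_two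
      rw [pow_succ]; linarith
    refine (Real.log_le_log (by positivity) this).trans ?_
    rw [Real.log_pow]; push_cast; rfl
  rw [e1, Real.log_pow, le_div_iff₀ (by push_cast; positivity)]
  push_cast
  set u : ℝ := 2 ^ r
  have h2 : c * ((4 * r + 2) * u) * (3 * r) + (3 * r + 1) ≤ u * u * u := by
    have h3 : (r : ℝ) + 1 ≤ u := by nlinarith
    have h4 : 12 * c * (r + 1) * (r + 1) + 4 * (r + 1) * (r + 1) ≤ u * u := by
      have := mul_le_mul h h3 (by positivity) (by positivity)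
      nlinarith
    have h5 := mul_le_mul_of_nonneg_right h4 (by positivity : 0 ≤ u)
    have h6 : c * ((4 * r + 2) * u) * (3 * r) ≤ 12 * c * (r + 1) * (r + 1) * u := by
      have : 0 ≤ c * u := by positivity
      nlinarith
    nlinarith
  rw [e2] at h1 ⊢
  have := mul_le_mul_of_nonneg_right h2 hl.le
  nlinarith

theorem num_size (D e r n0 : ℕ) (hr : 1 ≤ r) (hn : n0 ≤ r) :
    n0 + 2 * ((2 * ((8 ^ r) ^ D) ^ 2 * ((4 * r + 2) * e ^ (4 * r + 2))) * (1 + 2 *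
      ((2 * ((8 ^ r) ^ D) ^ 2 * ((4 * r + 2) * e ^ (4 * r + 2))) * (((4 * r + 2) * e ^ (4 * r + 2)) *
        (((4 * r + 2) * e ^ (4 * r + 2)) * e)) ^ 2)) + 1) + (4 * r + 2) ≤
      (2 ^ r) ^ (10 * (4 + 7 * e + 6 * D)) := by
  set u := 2 ^ r with hu
  have hu2 : 2 ≤ u := by
    calc 2 = 2 ^ 1 := rfl
      _ ≤ 2 ^ r := Nat.pow_le_pow_right two_pos hr
  have hru : r < u := Nat.lt_two_pow_self
  have hk : 4 * r + 2 ≤ u ^ 3 := by nlinarith [Nat.mul_le_mul hu2 hu2]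
  have he : e ≤ 2 ^ e := Nat.lt_two_pow_self.le
  have hek : e ^ (4 * r + 2) ≤ u ^ (6 * e) := by
    calc e ^ (4 * r + 2) ≤ (2 ^ e) ^ (6 * r) :=
          (Nat.pow_le_pow_left he _).trans (Nat.pow_le_pow_right (by positivity) (by omega))
      _ = _ := by rw [hu, ← pow_mul, ← pow_mul]; congr 1; ring
  have heu : e ≤ u ^ e := he.trans (Nat.pow_le_pow_left hu2 _)
  have h8 : ((8 ^ r) ^ D) ^ 2 = u ^ (6 * D) := by
    rw [hu, show 8 = 2 ^ 3 from rfl, ← pow_mul, ← pow_mul, ← pow_mul, ← pow_mul]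
    congr 1; ring
  have hδ : (4 * r + 2) * e ^ (4 * r + 2) ≤ u ^ (3 + 6 * e) := by
    rw [pow_add u]; exact Nat.mul_le_mul hk hek
  rw [h8, mul_comm 10, pow_mul u _ 10]
  set y := u ^ (4 + 7 * e + 6 * D) with hy
  have hmono : ∀ a, a ≤ 4 + 7 * e + 6 * D → u ^ a ≤ y := fun a ha =>
    Nat.pow_le_pow_right (by omega) ha
  generalize (4 * r + 2) * e ^ (4 * r + 2) = δ at *
  have h1 : δ ≤ y := hδ.trans (hmono _ (by omega))
  have h2 : δ * e ≤ y := (Nat.mul_le_mul hδ heu).trans (by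
    rw [← pow_add]; exact hmono _ (by omega))
  have h3 : 2 * u ^ (6 * D) * δ ≤ y :=
    (Nat.mul_le_mul (Nat.mul_le_mul_right _ hu2) hδ).trans (by
      rw [← pow_succ', ← pow_add]; exact hmono _ (by omega))
  have h4 : u ≤ y := by simpa using hmono 1 (by omega)
  have h5 : 4 * r + 2 ≤ y := hk.trans (hmono _ (by omega))
  generalize 2 * u ^ (6 * D) * δ = Γ at *
  have h6 : Γ * (1 + 2 * (Γ * (δ * (δ * e)) ^ 2)) ≤ y * (1 + 2 * (y * (y * y) ^ 2)) := by gcongr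
  have hy2 : 2 ≤ y := hu2.trans h4
  have h7 : y ≤ y ^ 6 := Nat.le_self_pow (by norm_num) y
  have h9 : 16 * y ^ 6 ≤ y ^ 10 := by
    calc 16 * y ^ 6 = 2 ^ 4 * y ^ 6 := rfl
      _ ≤ y ^ 4 * y ^ 6 := Nat.mul_le_mul_right _ (Nat.pow_le_pow_left hy2 _)
      _ = _ := by ring
  have h10 : y * (1 + 2 * (y * (y * y) ^ 2)) = y + 2 * y ^ 6 := by ring
  omega

variable {K : Type*} [Field K] [NumberField K] {a0 a1 b : MvPolynomial (Fin 2) K}

omit [NumberField K] in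
theorem orbit_inj (P : ℕ → Fin 2 → K) (hb : ∀ n, eval (P n) b ≠ 0)
    (hP0 : ∀ n, eval (P n) a0 = eval (P n) b * P (n + 1) 0)
    (hP1 : ∀ n, eval (P n) a1 = eval (P n) b * P (n + 1) 1)
    (hD : ∀ G : MvPolynomial (Fin 2) K, (∀ n, eval (P n) G = 0) → G = 0) [Infinite K] :
    Function.Injective P := by
  classical
  have step : ∀ n m, P n = P m → P (n + 1) = P (m + 1) := by
    intro n m h
    have h0 := hP0 n
    have h1 := hP1 n
    rw [h, hP0] at h0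
    rw [h, hP1] at h1
    rw [← vec_eta (P (n + 1)), ← vec_eta (P (m + 1)), mul_left_cancel₀ (hb m) h0,
      mul_left_cancel₀ (hb m) h1]
  have key : ∀ n m, n < m → P n ≠ P m := by
    intro n m hnm h
    have h1 : ∀ i, ∃ j < m, P i = P j := by
      intro i
      induction i with
      | zero => exact ⟨0, by omega, rfl⟩
      | succ i ih =>
        obtain ⟨j, hj, hi⟩ := ih
        rcases eq_or_lt_of_le (Nat.succ_le_of_lt hj) with h2 | h2
        · exact ⟨n, hnm, by rw [step _ _ hi, h, ← h2]⟩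
        · exact ⟨j + 1, h2, step _ _ hi⟩
    have h2 := hD (∏ j ∈ Finset.range m, (X 0 - C (P j 0))) (fun i => by
      obtain ⟨j, hj, hi⟩ := h1 i
      rw [map_prod]
      exact Finset.prod_eq_zero (Finset.mem_range.2 hj) (by simp [hi]))
    refine Finset.prod_ne_zero_iff.2 (fun j _ h => ?_) h2
    have := congrArg (eval fun _ => P j 0 + 1) h
    simp at this
  intro n m h
  rcases lt_trichotomy n m with h1 | h1 | h1
  · exact absurd h (key _ _ h1)
  · exact h1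
  · exact absurd h.symm (key _ _ h1)

theorem gap {M : Type*} [Field M] [Algebra K M] [Algebra (MvPolynomial (Fin 2) K) M]
    [IsScalarTower K (MvPolynomial (Fin 2) K) M] [IsFractionRing (MvPolynomial (Fin 2) K) M]
    (hnb : IntermediateField.adjoin K
      {algebraMap _ M a0 / algebraMap _ M b, algebraMap _ M a1 / algebraMap _ M b} ≠ ⊤) :
    ∃ κ : ℝ, 0 < κ ∧ ∀ P : ℕ → Fin 2 → K, (∀ n, eval (P n) b ≠ 0) →
      (∀ n, eval (P n) a0 = eval (P n) b * P (n + 1) 0) →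
      (∀ n, eval (P n) a1 = eval (P n) b * P (n + 1) 1) →
      (∀ G : MvPolynomial (Fin 2) K, (∀ n, eval (P n) G = 0) → G = 0) →
      ∃ᶠ n : ℕ in atTop, ∃ i, (n : ℝ) ^ κ < logHeight₁ (P n i) := by
  set e := a0.totalDegree + a1.totalDegree + b.totalDegree + 1 with hed
  have he : 1 ≤ e := by omega
  have h0 : a0.totalDegree ≤ e := by omega
  have h1 : a1.totalDegree ≤ e := by omega
  have h2 : b.totalDegree ≤ e := by omega
  set D := Module.finrank ℚ K with hDd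
  set A := 10 * (4 + 7 * e + 6 * D) with hA
  have hA0 : A ≠ 0 := by omega
  refine ⟨(A : ℝ)⁻¹, by positivity, fun P hb hP0 hP1 hD => ?_⟩
  by_contra hcon
  rw [not_frequently, eventually_atTop] at hcon
  obtain ⟨n0, hn0⟩ := hcon
  obtain ⟨t, ht⟩ := psi_ind h0 h1 h2 P hb hP0 hP1 hD hnb
  obtain ⟨c, hc, hcov⟩ := cover he h0 h1 h2
  obtain ⟨r, hr1, hr2, hr3, hr4⟩ := ((ev_lin (16 * (D + 1))).and ((ev_lin (12 * c + 4)).and
    ((eventually_ge_atTop 1).and (eventually_ge_atTop n0)))).exists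
  have hsz := num_size D e r n0 hr3 hr4
  rw [← hA] at hsz
  obtain ⟨G, hG0, hG⟩ := chain he h0 h1 h2 P hb hP0 hP1 (orbit_inj P hb hP0 hP1 hD) n0 _
    (2 * ((8 ^ r) ^ D) ^ 2 * ((4 * r + 2) * e ^ (4 * r + 2))) ((4 * r + 2) * e ^ (4 * r + 2))
    (fun S hS hne => hcov P hb hP0 hP1 t (4 * r + 2) (4 ^ r) (by omega) (ht _) (2 ^ r)
      (one_le_pow₀ one_le_two)
      (by rw [NumberField.totalWeight_eq_finrank]; exact num_det D r hr1) (8 ^ r)
      (num_pi c hc r hr3 hr2)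
      (le_trans (by norm_num) (Nat.pow_le_pow_right (by norm_num) hr3 : 8 ^ 1 ≤ 8 ^ r)) S hne
      (fun n hn j hj i => by
        have h3 := Finset.mem_Ico.1 (hS hn)
        have h4 := hn0 (n + j) (by omega)
        push Not at h4
        refine (h4 i).trans ?_
        have h5 : ((n + j : ℕ) : ℝ) ≤ ((2 : ℝ) ^ r) ^ A := by
          exact_mod_cast (show n + j ≤ (2 ^ r) ^ A by omega)
        refine (Real.rpow_le_rpow (Nat.cast_nonneg _) h5 (by positivity)).trans ?_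
        rw [Real.pow_rpow_inv_natCast (by positivity) hA0]))
    (Nat.lt_succ_self _)
  exact hG0 (hD G hG)

end Pool.Agent.KSD
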