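import Pool.Agent.MP_c8dfda_nt.dm.Gap

/-! Height estimates for polynomials of bounded degree in the second variable. -/

namespace Pool.Agent.KSD

open MvPolynomial Height Filter AdmissibleAbsValues Topology

theorem squeeze (u : ℕ → ℝ) (δ c C : ℝ) (hδ : 0 < δ) (hc : 0 < c) (hC : 0 < C)
    (hl : ∀ᶠ n in atTop, c * δ ^ n ≤ u n)
    (hu : ∀ᶠ n : ℕ in atTop, u n ≤ C * ((n : ℝ) + 1) ^ 2 * δ ^ n) :
    Tendsto (fun n : ℕ => u n ^ (1 / (n : ℝ))) atTop (𝓝 δ) := by
  have h0 : Tendsto (fun n : ℕ => 1 / (n : ℝ)) atTop (𝓝 0) :=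
    tendsto_one_div_atTop_nhds_zero_nat
  have hcst : ∀ a : ℝ, 0 < a → Tendsto (fun n : ℕ => a ^ (1 / (n : ℝ))) atTop (𝓝 1) := by
    intro a ha
    have := (tendsto_const_nhds (x := a)).rpow h0 (Or.inl ha.ne')
    rwa [Real.rpow_zero] at this
  have hp : Tendsto (fun n : ℕ => (((n : ℝ) + 1) ^ 2) ^ (1 / (n : ℝ))) atTop (𝓝 1) := by
    have h1 := (tendsto_rpow_div_mul_add 2 1 (-1) zero_ne_one).comp
      (tendsto_atTop_add_const_right atTop (1 : ℝ) tendsto_natCast_atTop_atTop)
    refine h1.congr fun n => ?_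
    simp only [Function.comp]
    rw [← Real.rpow_natCast, ← Real.rpow_mul (by positivity)]
    have : (2 : ℝ) / (1 * ((n : ℝ) + 1) + -1) = ((2 : ℕ) : ℝ) * (1 / (n : ℝ)) := by
      push_cast; ring
    rw [this]
  have hlo : Tendsto (fun n : ℕ => c ^ (1 / (n : ℝ)) * δ) atTop (𝓝 δ) := by
    have := (hcst c hc).mul_const δ
    rwa [one_mul] at this
  have hup : Tendsto (fun n : ℕ => C ^ (1 / (n : ℝ)) * (((n : ℝ) + 1) ^ 2) ^ (1 / (n : ℝ)) * δ)
      atTop (𝓝 δ) := by
    have := ((hcst C hC).mul hp).mul_const δ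
    rwa [one_mul, one_mul] at this
  have hpow : ∀ n : ℕ, n ≠ 0 → (δ ^ n) ^ (1 / (n : ℝ)) = δ := by
    intro n hn
    rw [one_div]
    exact Real.pow_rpow_inv_natCast hδ.le hn
  refine tendsto_of_tendsto_of_tendsto_of_le_of_le' hlo hup ?_ ?_
  · filter_upwards [hl, eventually_ne_atTop 0] with n h1 hn
    calc c ^ (1 / (n : ℝ)) * δ = (c * δ ^ n) ^ (1 / (n : ℝ)) := by
          rw [Real.mul_rpow hc.le (by positivity), hpow n hn]
      _ ≤ u n ^ (1 / (n : ℝ)) := Real.rpow_le_rpow (by positivity) h1 (by positivity)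
  · filter_upwards [hl, hu, eventually_ne_atTop 0] with n h1 h3 hn
    have h2 : 0 ≤ u n := le_trans (by positivity) h1
    calc u n ^ (1 / (n : ℝ)) ≤ (C * ((n : ℝ) + 1) ^ 2 * δ ^ n) ^ (1 / (n : ℝ)) :=
          Real.rpow_le_rpow h2 h3 (by positivity)
      _ = _ := by
          rw [Real.mul_rpow (by positivity) (by positivity),
            Real.mul_rpow hC.le (by positivity), hpow n hn]

theorem grow (g : ℕ → ℝ) (hg : ∀ n, 0 ≤ g n) {d C : ℝ} (hd : 2 ≤ d) (hC : 0 ≤ C) (n1 : ℕ)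
    (h1 : ∀ n, n1 ≤ n → d * g n - C * Real.log (n + 2) ≤ g (n + 1))
    (h2 : ∀ n, n1 ≤ n → g (n + 1) ≤ d * g n + C * Real.log (n + 2))
    (h3 : ∃ᶠ n : ℕ in atTop, 2 * C * Real.log (n + 2) < g n) :
    ∃ c1 c2 : ℝ, 0 < c1 ∧ 0 < c2 ∧ ∀ᶠ n : ℕ in atTop, c1 * d ^ n ≤ g n ∧ g n ≤ c2 * d ^ n := by
  obtain ⟨m, hm, hm1, hm2⟩ :=
    (h3.and_eventually ((eventually_ge_atTop n1).and (eventually_ge_atTop 1))).exists
  have hd0 : 0 < d := by linarith
  have hlo : ∀ j, (g m - 2 * C * Real.log (m + 2)) * d ^ j ≤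
      g (m + j) - 2 * C * Real.log ((m + j : ℕ) + 2) := by
    intro j
    induction j with
    | zero => simp
    | succ j ih =>
      have h4 := h1 (m + j) (by omega)
      rw [← add_assoc, pow_succ, ← mul_assoc]
      have hn : (1 : ℝ) ≤ (m + j : ℕ) := by exact_mod_cast (by omega : 1 ≤ m + j)
      have e : ((m + j + 1 : ℕ) : ℝ) = (m + j : ℕ) + 1 := by push_cast; ring
      rw [e]
      generalize ((m + j : ℕ) : ℝ) = x at *
      have h5 : 2 * Real.log (x + 1 + 2) ≤ 3 * Real.log (x + 2) := by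
        have := Real.log_le_log (by positivity : 0 < (x + 1 + 2) ^ 2)
          (by nlinarith [mul_nonneg (by linarith : 0 ≤ x) (sq_nonneg x)] :
            (x + 1 + 2) ^ 2 ≤ (x + 2) ^ 3)
        rw [Real.log_pow, Real.log_pow] at this
        exact_mod_cast this
      have h6 : 0 ≤ Real.log (x + 2) := Real.log_nonneg (by linarith)
      have h7 := mul_le_mul_of_nonneg_right ih hd0.le
      have h8 := mul_le_mul_of_nonneg_left h5 hC
      have h9 := mul_le_mul_of_nonneg_left hd (mul_nonneg hC h6)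
      nlinarith
  have hup : ∀ j, g (m + j) + C * ((m + j : ℕ) + 3) ≤ (g m + C * (m + 3)) * d ^ j := by
    intro j
    induction j with
    | zero => simp
    | succ j ih =>
      have h4 := h2 (m + j) (by omega)
      rw [← add_assoc, pow_succ, ← mul_assoc]
      have hn : (0 : ℝ) ≤ (m + j : ℕ) := Nat.cast_nonneg _
      have e : ((m + j + 1 : ℕ) : ℝ) = (m + j : ℕ) + 1 := by push_cast; ring
      rw [e]
      generalize ((m + j : ℕ) : ℝ) = x at *
      have h5 : Real.log (x + 2) ≤ x + 2 := (Real.log_le_sub_one_of_pos (by linarith)).trans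
        (by linarith)
      have h7 := mul_le_mul_of_nonneg_right ih hd0.le
      have h8 := mul_le_mul_of_nonneg_left h5 hC
      have h9 := mul_le_mul_of_nonneg_left hd (mul_nonneg hC (by linarith : 0 ≤ x + 3))
      nlinarith
  have hp : 0 < d ^ m := pow_pos hd0 m
  have h0 : 0 ≤ g m + C * (m + 3) := add_nonneg (hg m) (by positivity)
  refine ⟨(g m - 2 * C * Real.log (m + 2)) / d ^ m, g m + C * (m + 3) + 1,
    div_pos (by linarith) hp, by linarith, ?_⟩
  filter_upwards [eventually_ge_atTop m] with n hn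
  obtain ⟨j, rfl⟩ := Nat.exists_eq_add_of_le hn
  constructor
  · rw [pow_add, ← mul_assoc, div_mul_cancel₀ _ hp.ne']
    have : 0 ≤ Real.log ((m + j : ℕ) + 2) := Real.log_nonneg (by
      have : (0 : ℝ) ≤ (m + j : ℕ) := Nat.cast_nonneg _
      linarith)
    have := hlo j
    nlinarith
  · have h4 := hup j
    have h5 : d ^ j ≤ d ^ (m + j) := pow_le_pow_right₀ (by linarith) (by omega)
    have h6 : 0 ≤ C * ((m + j : ℕ) + 3) := by positivity
    have h7 := mul_le_mul_of_nonneg_left h5 h0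
    have h8 := pow_pos hd0 (m + j)
    nlinarith

section Glob

variable {K : Type*} [Field K] [AdmissibleAbsValues K]

open Finset Multiset in
theorem lgT {ι α : Type*} [Finite ι] (s : Finset α) (z : α → K) (x : ι → K)
    (h : ∀ (v : AbsoluteValue K ℝ) (i : ι), v (x i) ≤ ∏ a ∈ s, max (v (z a)) 1) :
    logHeight x ≤ ∑ a ∈ s, logHeight₁ (z a) := by
  simp only [logHeight₁_eq_log_mulHeight₁, logHeight_eq_log_mulHeight]
  rw [← Real.log_prod fun _ _ => mulHeight₁_ne_zero _]
  refine Real.log_le_log (mulHeight_pos _) ?_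
  rcases eq_or_ne x 0 with rfl | hx
  · rw [mulHeight_zero]
    exact s.one_le_prod fun _ _ => one_le_mulHeight₁ _
  have : Nonempty ι := (Function.ne_iff.mp hx).nonempty
  simp only [mulHeight₁_eq, mulHeight_eq hx]
  rw [prod_mul_distrib, ← finprod_prod_comm _ _ (by fun_prop), ← prod_map_prod]
  gcongr
  · exact finprod_nonneg fun v ↦ Real.iSup_nonneg_of_nonnegHomClass v.val _
  · exact prod_map_nonneg fun _ h ↦ by positivity
  · exact prod_map_le_prod_map₀ _ _ (fun v _ ↦ Real.iSup_nonneg_of_nonnegHomClass v _)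
      fun v _ ↦ ciSup_le (h v)
  · exact finprod_le_finprod (by fun_prop)
      (fun v ↦ Real.iSup_nonneg_of_nonnegHomClass v.val _) (by fun_prop) fun v ↦ ciSup_le (h v.1)

theorem tup_le_sum {ι : Type*} [Fintype ι] (x : ι → K) : logHeight x ≤ ∑ i, logHeight₁ (x i) :=
  lgT _ x x fun v i => Finset.le_prod_max_one (Finset.mem_univ i) fun i => v (x i)

theorem pow_tup (s : ℕ) (y : K) :
    logHeight (fun l : Fin (s + 1) => y ^ (l : ℕ)) ≤ s * logHeight₁ y := by
  have := lgT (Finset.range s) (fun _ => y) (fun l : Fin (s + 1) => y ^ (l : ℕ)) (fun v l => by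
    rw [Finset.prod_const, Finset.card_range, map_pow]
    exact (pow_le_pow_left₀ (v.nonneg _) (le_max_left _ _) _).trans
      (pow_le_pow_right₀ (le_max_right _ _) (Nat.lt_succ_iff.1 l.2)))
  simpa using this

theorem height_nat (n : ℕ) : logHeight₁ (n : K) ≤ totalWeight K * Real.log (n + 2) := by
  have h0 : (0 : ℝ) ≤ n := Nat.cast_nonneg n
  have := lg (∅ : Finset Unit) (fun _ => (0 : K)) (n : K) (c := n + 2) (by linarith)
    (fun v => by
      have := v.apply_nat_le_self n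
      simp only [Finset.prod_empty, mul_one]
      linarith)
    (fun v hv => by simpa using hv.apply_natCast_le_one)
  rw [Finset.prod_empty, mul_one] at this
  rw [logHeight₁_eq_log_mulHeight₁, ← Real.log_pow]
  exact Real.log_le_log (mulHeight₁_pos _) this

theorem h3_le (a b : K) : logHeight ![a, b, 1] ≤ logHeight₁ a + logHeight₁ b := by
  have := tup_le_sum ![a, b, 1]
  simpa [Fin.sum_univ_three] using this

theorem le_h3 (Q : Fin 2 → K) (i : Fin 2) : logHeight₁ (Q i) ≤ logHeight ![Q 0, Q 1, 1] := by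
  rw [logHeight₁_eq_logHeight]
  have := logHeight_comp_le ![i.castSucc, 2] ![Q 0, Q 1, 1]
  refine le_of_eq_of_le ?_ this
  congr 1
  funext j
  fin_cases i <;> fin_cases j <;> rfl

end Glob

variable {K : Type*} [Field K]

/-- `G` has degree at most `d` in the second variable. -/
def YD (d : ℕ) (G : MvPolynomial (Fin 2) K) : Prop :=
  ∃ c : ℕ → Polynomial K,
    G = ∑ i ∈ Finset.range (d + 1), Polynomial.aeval (X 0 : MvPolynomial (Fin 2) K) (c i) * X 1 ^ i

theorem yd_equiv {d : ℕ} {p : Polynomial (Polynomial K)} (hp : p.natDegree ≤ d) :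
    YD d (Polynomial.Bivariate.equivMvPolynomial K p) := by
  refine ⟨p.coeff, ?_⟩
  conv_lhs => rw [p.as_sum_range_C_mul_X_pow' (Nat.lt_succ_of_le hp), map_sum]
  refine Finset.sum_congr rfl fun i _ => ?_
  simp [Polynomial.Bivariate.equivMvPolynomial, Polynomial.eval_map, Polynomial.aeval_def]

theorem yd_of_deg {d : ℕ} {G : MvPolynomial (Fin 2) K} (h : G.totalDegree ≤ d) : YD d G := by
  rw [← (Polynomial.Bivariate.equivMvPolynomial K).apply_symm_apply G]
  exact yd_equiv ((td_symm G).natDegree_le.trans h)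

theorem aeval_yd {L : Type*} [CommRing L] [Algebra K L] (v : Fin 2 → L) (d : ℕ)
    (c : ℕ → Polynomial K) :
    aeval v (∑ i ∈ Finset.range (d + 1),
      Polynomial.aeval (X 0 : MvPolynomial (Fin 2) K) (c i) * X 1 ^ i) =
      ∑ i ∈ Finset.range (d + 1), Polynomial.aeval (v 0) (c i) * v 1 ^ i := by
  simp only [map_sum, map_mul, map_pow, aeval_X, ← Polynomial.aeval_algHom_apply]

theorem height_yd [NumberField K] {ι : Type*} [Fintype ι] {s : ℕ} (G : ι → MvPolynomial (Fin 2) K)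
    (hG : ∀ i, YD s (G i)) : ∃ c : ℝ, 0 ≤ c ∧ ∀ Q : Fin 2 → K,
      logHeight (fun i => eval Q (G i)) ≤ s * logHeight₁ (Q 1) + c * (logHeight₁ (Q 0) + 1) := by
  choose p hp using hG
  choose c hc0 hc using fun a : ι × Fin (s + 1) =>
    height_eval (Polynomial.aeval (X 0 : MvPolynomial (Fin 2) K) (p a.1 a.2))
  have h0 : 0 ≤ (totalWeight K : ℝ) * Real.log (Nat.card (Fin (s + 1))) := by positivity
  refine ⟨totalWeight K * Real.log (Nat.card (Fin (s + 1))) + ∑ a, c a,
    add_nonneg h0 (Finset.sum_nonneg fun a _ => hc0 a), fun Q => ?_⟩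
  have h1 := logHeight_linearMap_apply_le
    (fun a : ι × Fin (s + 1) => Polynomial.aeval (Q 0) (p a.1 a.2)) fun l => Q 1 ^ (l : ℕ)
  have h2 : (fun i => eval Q (G i)) =
      fun j => ∑ l : Fin (s + 1), Polynomial.aeval (Q 0) (p j l) * Q 1 ^ (l : ℕ) := by
    funext j
    rw [hp j, ← aeval_eq_eval, aeval_yd, Finset.sum_range]
  have h3 := pow_tup s (Q 1)
  have h4 := tup_le_sum fun a : ι × Fin (s + 1) => Polynomial.aeval (Q 0) (p a.1 a.2)
  have h5 := zero_le_logHeight₁ (Q 0)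
  have h6 : ∑ a : ι × Fin (s + 1), logHeight₁ (Polynomial.aeval (Q 0) (p a.1 a.2)) ≤
      (∑ a, c a) * (logHeight₁ (Q 0) + 1) := by
    rw [Finset.sum_mul]
    refine Finset.sum_le_sum fun a _ => ?_
    have := hc a (fun _ => Q 0) (logHeight₁ (Q 0) + 1) (by linarith) fun _ => by linarith
    rwa [← aeval_eq_eval, ← Polynomial.aeval_algHom_apply, aeval_X] at this
  rw [h2]
  nlinarith

end Pool.Agent.KSD
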