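import Pool.Agent.MP_c8dfda_nt.dm.Chain

/-! Homogeneous iterates and the `2 ^ k` independent functions. -/

namespace Pool.Agent.KSD

open MvPolynomial

variable {K : Type*} [Field K]

/-- Homogeneous coordinates of the `j`-th iterate of `(a0 / b, a1 / b)`. -/
noncomputable def tr (e : ℕ) (a0 a1 b : MvPolynomial (Fin 2) K) :
    ℕ → MvPolynomial (Fin 2) K × MvPolynomial (Fin 2) K × MvPolynomial (Fin 2) K
  | 0 => (X 0, X 1, 1)
  | j + 1 =>
    (hz e a0 (tr e a0 a1 b j).1 (tr e a0 a1 b j).2.1 (tr e a0 a1 b j).2.2,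
      hz e a1 (tr e a0 a1 b j).1 (tr e a0 a1 b j).2.1 (tr e a0 a1 b j).2.2,
      hz e b (tr e a0 a1 b j).1 (tr e a0 a1 b j).2.1 (tr e a0 a1 b j).2.2)

/-- The numerators of the products of iterates of one coordinate. -/
noncomputable def psi (e : ℕ) (a0 a1 b : MvPolynomial (Fin 2) K) (t : Fin 2) {k : ℕ}
    (ε : Fin k → Bool) : MvPolynomial (Fin 2) K :=
  ∏ j : Fin k, if ε j then ![(tr e a0 a1 b j).1, (tr e a0 a1 b j).2.1] t else (tr e a0 a1 b j).2.2

variable {e : ℕ} {a0 a1 b : MvPolynomial (Fin 2) K}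

theorem deg_tr (h0 : a0.totalDegree ≤ e) (h1 : a1.totalDegree ≤ e) (h2 : b.totalDegree ≤ e)
    (j : ℕ) : (tr e a0 a1 b j).1.totalDegree ≤ e ^ j ∧ (tr e a0 a1 b j).2.1.totalDegree ≤ e ^ j ∧
      (tr e a0 a1 b j).2.2.totalDegree ≤ e ^ j := by
  induction j with
  | zero => simp [tr, totalDegree_X]
  | succ j ih =>
    rw [pow_succ']
    exact ⟨deg_hz h0 ih.1 ih.2.1 ih.2.2, deg_hz h1 ih.1 ih.2.1 ih.2.2,
      deg_hz h2 ih.1 ih.2.1 ih.2.2⟩

theorem deg_psi (he : 1 ≤ e) (h0 : a0.totalDegree ≤ e) (h1 : a1.totalDegree ≤ e)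
    (h2 : b.totalDegree ≤ e) (t : Fin 2) {k : ℕ} (ε : Fin k → Bool) :
    (psi e a0 a1 b t ε).totalDegree ≤ k * e ^ k := by
  refine (totalDegree_finsetProd _ _).trans ?_
  refine (Finset.sum_le_card_nsmul _ _ (e ^ k) fun j _ => ?_).trans (by simp)
  have h := deg_tr h0 h1 h2 j
  have h' : e ^ (j : ℕ) ≤ e ^ k := Nat.pow_le_pow_right he j.2.le
  split_ifs
  · fin_cases t
    · exact h.1.trans h'
    · exact h.2.1.trans h'
  · exact h.2.2.trans h'

theorem tr_eval {L : Type*} [Field L] [Algebra K L] (h0 : a0.totalDegree ≤ e)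
    (h1 : a1.totalDegree ≤ e) (h2 : b.totalDegree ≤ e) (φ : MvPolynomial (Fin 2) K →ₐ[K] L)
    (Q : ℕ → Fin 2 → L) (hX : ∀ i, φ (X i) = Q 0 i)
    (hP0 : ∀ n, aeval (Q n) a0 = aeval (Q n) b * Q (n + 1) 0)
    (hP1 : ∀ n, aeval (Q n) a1 = aeval (Q n) b * Q (n + 1) 1) (j : ℕ) :
    φ (tr e a0 a1 b j).1 = φ (tr e a0 a1 b j).2.2 * Q j 0 ∧
      φ (tr e a0 a1 b j).2.1 = φ (tr e a0 a1 b j).2.2 * Q j 1 ∧
      φ (tr e a0 a1 b (j + 1)).2.2 = φ (tr e a0 a1 b j).2.2 ^ e * aeval (Q j) b := by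
  have key : ∀ j, (φ (tr e a0 a1 b j).1 = φ (tr e a0 a1 b j).2.2 * Q j 0 ∧
      φ (tr e a0 a1 b j).2.1 = φ (tr e a0 a1 b j).2.2 * Q j 1) → ∀ G : MvPolynomial (Fin 2) K,
      G.totalDegree ≤ e → φ (hz e G (tr e a0 a1 b j).1 (tr e a0 a1 b j).2.1 (tr e a0 a1 b j).2.2) =
        φ (tr e a0 a1 b j).2.2 ^ e * aeval (Q j) G := by
    intro j h G hG
    rw [map_hz, h.1, h.2, hz_eq hG, vec_eta]
  have main : ∀ j, φ (tr e a0 a1 b j).1 = φ (tr e a0 a1 b j).2.2 * Q j 0 ∧
      φ (tr e a0 a1 b j).2.1 = φ (tr e a0 a1 b j).2.2 * Q j 1 := by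
    intro j
    induction j with
    | zero => simp [tr, hX]
    | succ j ih =>
      simp only [tr]
      rw [key j ih a0 h0, key j ih a1 h1, key j ih b h2, hP0, hP1]
      exact ⟨by ring, by ring⟩
  exact ⟨(main j).1, (main j).2, key j (main j) b h2⟩

theorem psi_eval {L : Type*} [Field L] [Algebra K L] (h0 : a0.totalDegree ≤ e)
    (h1 : a1.totalDegree ≤ e) (h2 : b.totalDegree ≤ e) (φ : MvPolynomial (Fin 2) K →ₐ[K] L)
    (Q : ℕ → Fin 2 → L) (hX : ∀ i, φ (X i) = Q 0 i)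
    (hP0 : ∀ n, aeval (Q n) a0 = aeval (Q n) b * Q (n + 1) 0)
    (hP1 : ∀ n, aeval (Q n) a1 = aeval (Q n) b * Q (n + 1) 1) (t : Fin 2) {k : ℕ}
    (ε : Fin k → Bool) :
    φ (psi e a0 a1 b t ε) = (∏ j : Fin k, φ (tr e a0 a1 b j).2.2) *
      ∏ j : Fin k, if ε j then Q j t else 1 := by
  rw [psi, map_prod, ← Finset.prod_mul_distrib]
  refine Finset.prod_congr rfl fun j _ => ?_
  have h := tr_eval h0 h1 h2 φ Q hX hP0 hP1 j
  split_ifs
  · fin_cases t
    · exact h.1
    · exact h.2.1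
  · rw [mul_one]

theorem ind {M : Type*} [Field M] (σ : M →+* M) {z : M} (hz : z ∉ σ.range) (k : ℕ) :
    ∀ c : (Fin k → Bool) → M,
      ∑ ε, (σ ^ k) (c ε) * ∏ j : Fin k, (if ε j then (σ ^ (j : ℕ)) z else 1) = 0 →
        ∀ ε, c ε = 0 := by
  induction k with
  | zero =>
    intro c h ε
    rw [Fintype.sum_eq_single ε fun _ h => absurd (Subsingleton.elim _ _) h] at h
    simpa only [pow_zero, RingHom.coe_one, id, Finset.univ_eq_empty, Finset.prod_empty, mul_one]
      using h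
  | succ k ih =>
    intro c h
    rw [← (Fin.consEquiv fun _ => Bool).sum_comp, Fintype.sum_prod_type, Fintype.sum_bool] at h
    have hs : ∀ s : Bool, ∑ ε : Fin k → Bool,
        (σ ^ (k + 1)) (c ((Fin.consEquiv fun _ => Bool) (s, ε))) *
          ∏ j : Fin (k + 1), (if (Fin.consEquiv fun _ => Bool) (s, ε) j then (σ ^ (j : ℕ)) z else 1) =
        (if s then z else 1) * σ (∑ ε : Fin k → Bool, (σ ^ k) (c (Fin.cons s ε)) *
          ∏ j : Fin k, (if ε j then (σ ^ (j : ℕ)) z else 1)) := by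
      intro s
      rw [map_sum, Finset.mul_sum]
      refine Finset.sum_congr rfl fun ε _ => ?_
      rw [Fin.prod_univ_succ, map_mul, map_prod]
      have e1 : ∀ j : Fin k, σ (if ε j then (σ ^ (j : ℕ)) z else 1) =
          if ε j then (σ ^ ((j.succ : Fin (k + 1)) : ℕ)) z else 1 := by
        intro j
        split_ifs
        · rw [Fin.val_succ, pow_succ']; rfl
        · exact map_one σ
      simp only [e1, Fin.consEquiv_apply, Fin.cons_zero, Fin.cons_succ, Fin.val_zero, pow_zero]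
      rw [pow_succ']
      change σ ((σ ^ k) (c (Fin.cons s ε))) * ((if s then z else 1) * _) = _ * (σ _ * _)
      ring
    rw [hs, hs] at h
    simp only [if_true, Bool.false_eq_true, if_false, one_mul] at h
    set A := ∑ ε : Fin k → Bool, (σ ^ k) (c (Fin.cons true ε)) *
      ∏ j : Fin k, (if ε j then (σ ^ (j : ℕ)) z else 1)
    set B := ∑ ε : Fin k → Bool, (σ ^ k) (c (Fin.cons false ε)) *
      ∏ j : Fin k, (if ε j then (σ ^ (j : ℕ)) z else 1)
    have hA : A = 0 := by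
      by_contra hA
      apply hz
      refine ⟨-B / A, ?_⟩
      have : σ A ≠ 0 := (map_ne_zero σ).2 hA
      rw [map_div₀, map_neg, div_eq_iff this]
      linear_combination -h
    have hB : B = 0 := by
      rw [hA, map_zero, mul_zero, zero_add] at h
      exact (map_eq_zero σ).1 h
    intro ε
    rw [← Fin.cons_self_tail ε]
    cases ε 0
    · exact ih (fun ε => c (Fin.cons false ε)) hB _
    · exact ih (fun ε => c (Fin.cons true ε)) hA _

theorem dense_succ {P : ℕ → Fin 2 → K}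
    (hD : ∀ G : MvPolynomial (Fin 2) K, (∀ n, eval (P n) G = 0) → G = 0) (m : ℕ)
    (G : MvPolynomial (Fin 2) K) (hG : ∀ n, m ≤ n → eval (P n) G = 0) : G = 0 := by
  have := hD (G * ∏ i ∈ Finset.range m, (X 0 - C (P i 0))) (fun n => by
    rw [map_mul, map_prod]
    rcases lt_or_ge n m with h | h
    · rw [Finset.prod_eq_zero (Finset.mem_range.2 h) (f := fun i => eval (P n) (X 0 - C (P i 0)))
        (by simp), mul_zero]
    · rw [hG n h, zero_mul])
  refine (mul_eq_zero.1 this).resolve_right (Finset.prod_ne_zero_iff.2 fun i _ h => ?_)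
  have := congrArg (eval fun _ => P i 0 + 1) h
  simp at this

/-- The pull-back by a map with a dense orbit is an endomorphism of the function field. -/
theorem exists_sigma {M : Type*} [Field M] [Algebra K M] [Algebra (MvPolynomial (Fin 2) K) M]
    [IsScalarTower K (MvPolynomial (Fin 2) K) M] [IsFractionRing (MvPolynomial (Fin 2) K) M]
    (P : ℕ → Fin 2 → K) (hb : ∀ n, eval (P n) b ≠ 0)
    (hP0 : ∀ n, eval (P n) a0 = eval (P n) b * P (n + 1) 0)
    (hP1 : ∀ n, eval (P n) a1 = eval (P n) b * P (n + 1) 1)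
    (hD : ∀ G : MvPolynomial (Fin 2) K, (∀ n, eval (P n) G = 0) → G = 0) :
    ∃ σ : M →ₐ[K] M, ∀ G : MvPolynomial (Fin 2) K, σ (algebraMap _ M G) =
      aeval ![algebraMap _ M a0 / algebraMap _ M b, algebraMap _ M a1 / algebraMap _ M b] G := by
  have hinj := IsFractionRing.injective (MvPolynomial (Fin 2) K) M
  have hb0 : algebraMap _ M b ≠ 0 := fun h => hb 0 (by
    rw [(map_eq_zero_iff _ hinj).1 h, map_zero])
  have hτ : Function.Injective (aeval ![algebraMap _ M a0 / algebraMap _ M b,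
      algebraMap _ M a1 / algebraMap _ M b] : MvPolynomial (Fin 2) K →ₐ[K] M) := by
    rw [injective_iff_map_eq_zero]
    intro G hG
    have h1 := map_hz (IsScalarTower.toAlgHom K (MvPolynomial (Fin 2) K) M) G.totalDegree G a0 a1 b
    simp only [IsScalarTower.coe_toAlgHom'] at h1
    have h2 := hz_eq (le_refl G.totalDegree) (algebraMap _ M a0 / algebraMap _ M b)
      (algebraMap _ M a1 / algebraMap _ M b) (algebraMap _ M b)
    rw [mul_div_cancel₀ _ hb0, mul_div_cancel₀ _ hb0, hG, mul_zero, ← h1,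
      map_eq_zero_iff _ hinj] at h2
    refine dense_succ hD 1 G fun n hn => ?_
    obtain ⟨n, rfl⟩ := Nat.exists_eq_add_of_le' hn
    have h3 := eval_hz (P n) G.totalDegree G a0 a1 b
    rw [h2, map_zero, hP0, hP1, hz_eq le_rfl, vec_eta] at h3
    exact (mul_eq_zero.1 h3.symm).resolve_left (pow_ne_zero _ (hb n))
  exact ⟨IsFractionRing.liftAlgHom hτ, fun G => by simp [IsFractionRing.liftAlgHom_apply]⟩

theorem psi_ind {M : Type*} [Field M] [Algebra K M] [Algebra (MvPolynomial (Fin 2) K) M]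
    [IsScalarTower K (MvPolynomial (Fin 2) K) M] [IsFractionRing (MvPolynomial (Fin 2) K) M]
    (h0 : a0.totalDegree ≤ e) (h1 : a1.totalDegree ≤ e) (h2 : b.totalDegree ≤ e)
    (P : ℕ → Fin 2 → K) (hb : ∀ n, eval (P n) b ≠ 0)
    (hP0 : ∀ n, eval (P n) a0 = eval (P n) b * P (n + 1) 0)
    (hP1 : ∀ n, eval (P n) a1 = eval (P n) b * P (n + 1) 1)
    (hD : ∀ G : MvPolynomial (Fin 2) K, (∀ n, eval (P n) G = 0) → G = 0)
    (hnb : IntermediateField.adjoin K
      {algebraMap _ M a0 / algebraMap _ M b, algebraMap _ M a1 / algebraMap _ M b} ≠ ⊤) :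
    ∃ t : Fin 2, ∀ (k : ℕ) (c : (Fin k → Bool) → K),
      ∑ ε, C (c ε) * psi e a0 a1 b t ε = 0 → ∀ ε, c ε = 0 := by
  obtain ⟨σ, hσ⟩ := exists_sigma (M := M) P hb hP0 hP1 hD
  have hinj := IsFractionRing.injective (MvPolynomial (Fin 2) K) M
  have hb0 : algebraMap _ M b ≠ 0 := fun h => hb 0 (by
    rw [(map_eq_zero_iff _ hinj).1 h, map_zero])
  set E := IntermediateField.adjoin K
      {algebraMap _ M a0 / algebraMap _ M b, algebraMap _ M a1 / algebraMap _ M b} with hE
  have hsub : ∀ (E' : IntermediateField K M) (v : Fin 2 → M), (∀ i, v i ∈ E') →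
      ∀ G : MvPolynomial (Fin 2) K, aeval v G ∈ E' := by
    intro E' v hv G
    induction G using MvPolynomial.induction_on with
    | C a => rw [aeval_C]; exact E'.algebraMap_mem a
    | add p q hp hq => rw [map_add]; exact E'.add_mem hp hq
    | mul_X p i hp => rw [map_mul, aeval_X]; exact E'.mul_mem hp (hv i)
  have hX : ∀ G : MvPolynomial (Fin 2) K,
      aeval (fun i => algebraMap (MvPolynomial (Fin 2) K) M (X i)) G = algebraMap _ M G := by
    intro G
    have : aeval (fun i => algebraMap (MvPolynomial (Fin 2) K) M (X i)) =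
        IsScalarTower.toAlgHom K (MvPolynomial (Fin 2) K) M := by
      ext i; simp
    rw [this]; rfl
  have hr : ∀ m, σ m ∈ E := by
    intro m
    obtain ⟨G, H, -, rfl⟩ := IsFractionRing.div_surjective (A := MvPolynomial (Fin 2) K) m
    have hv : ∀ i, ![algebraMap _ M a0 / algebraMap _ M b,
        algebraMap _ M a1 / algebraMap _ M b] i ∈ E := by
      intro i
      fin_cases i
      · exact IntermediateField.subset_adjoin _ _ (Or.inl rfl)
      · exact IntermediateField.subset_adjoin _ _ (Or.inr rfl)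
    rw [map_div₀, hσ, hσ]
    exact E.div_mem (hsub E _ hv G) (hsub E _ hv H)
  have ht : ∃ t : Fin 2, algebraMap (MvPolynomial (Fin 2) K) M (X t) ∉ σ.toRingHom.range := by
    by_contra hc
    push Not at hc
    apply hnb
    rw [eq_top_iff]
    intro m _
    obtain ⟨G, H, -, rfl⟩ := IsFractionRing.div_surjective (A := MvPolynomial (Fin 2) K) m
    have hv : ∀ i, algebraMap (MvPolynomial (Fin 2) K) M (X i) ∈ E := fun i => by
      obtain ⟨m, hm⟩ := hc i
      rw [← hm]
      exact hr m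
    rw [← hX G, ← hX H]
    exact E.div_mem (hsub E _ hv G) (hsub E _ hv H)
  obtain ⟨t, ht⟩ := ht
  refine ⟨t, fun k c hc ε => ?_⟩
  let Q : ℕ → Fin 2 → M := fun n i => (σ ^ n) (algebraMap (MvPolynomial (Fin 2) K) M (X i))
  have hQ : ∀ n (G : MvPolynomial (Fin 2) K), aeval (Q n) G = (σ ^ n) (algebraMap _ M G) := by
    intro n G
    rw [← hX G, ← AlgHom.comp_apply, comp_aeval]
  have hQb : ∀ n, aeval (Q n) b ≠ 0 := fun n => by
    rw [hQ]; exact (map_ne_zero _).2 hb0
  have hQ0 : ∀ n, aeval (Q n) a0 = aeval (Q n) b * Q (n + 1) 0 := by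
    intro n
    simp only [hQ, Q]
    rw [pow_succ, AlgHom.mul_apply, hσ, aeval_X, ← map_mul]
    simp only [Matrix.cons_val_zero]
    rw [mul_div_cancel₀ _ hb0]
  have hQ1 : ∀ n, aeval (Q n) a1 = aeval (Q n) b * Q (n + 1) 1 := by
    intro n
    simp only [hQ, Q]
    rw [pow_succ, AlgHom.mul_apply, hσ, aeval_X, ← map_mul]
    simp only [Matrix.cons_val_one, Matrix.cons_val_zero]
    rw [mul_div_cancel₀ _ hb0]
  let φ := IsScalarTower.toAlgHom K (MvPolynomial (Fin 2) K) M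
  have hφ : ∀ i, φ (X i) = Q 0 i := fun i => rfl
  have hW : ∀ j, φ (tr e a0 a1 b j).2.2 ≠ 0 := by
    intro j
    induction j with
    | zero => simp [tr]
    | succ j ih =>
      rw [(tr_eval h0 h1 h2 φ Q hφ hQ0 hQ1 j).2.2]
      exact mul_ne_zero (pow_ne_zero _ ih) (hQb j)
  have hpow : ∀ (n : ℕ) (m : M), (σ.toRingHom ^ n) m = (σ ^ n) m := by
    intro n m
    rw [RingHom.coe_pow, AlgHom.coe_pow]
    rfl
  have h3 := congrArg φ hc
  rw [map_sum, map_zero] at h3
  simp only [map_mul, psi_eval h0 h1 h2 φ Q hφ hQ0 hQ1] at h3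
  have h4 := ind σ.toRingHom ht k (fun ε => algebraMap K M (c ε)) (by
    refine mul_left_cancel₀ (Finset.prod_ne_zero_iff.2 fun (j : Fin k) (_ : j ∈ Finset.univ) =>
      hW j) ?_
    rw [mul_zero, ← h3, Finset.mul_sum]
    refine Finset.sum_congr rfl fun ε _ => ?_
    simp only [hpow, AlgHom.commutes, Q]
    rw [← algebraMap_eq, AlgHom.commutes]
    ring) ε
  exact (map_eq_zero _).1 h4

end Pool.Agent.KSD
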