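import Pool.Agent.MP_c8dfda_nt.dm.Det

/-! Finite places with small residue fields. -/

namespace Pool.Agent.KSD

open Height AdmissibleAbsValues NumberField IsDedekindDomain

variable {K : Type*} [Field K] [NumberField K]

/-- A finite place with value gap `2` and at most `q` residue classes. -/
def Pl (w : nonarchAbsVal (K := K)) (q : ℕ) : Prop :=
  (∀ x, w.1 x < 1 → w.1 x ≤ 1 / 2) ∧
    ∃ cls : K → Fin q, ∀ x y, w.1 x ≤ 1 → w.1 y ≤ 1 → cls x = cls y → w.1 (x - y) < 1

theorem exists_place {p q : ℕ} (hp : p.Prime) (hq : p ^ Module.finrank ℚ K ≤ q) :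
    ∃ w : nonarchAbsVal (K := K), w.1 p < 1 ∧ Pl w q := by
  classical
  have hN : Ideal.absNorm (Ideal.span {(p : 𝓞 K)}) = p ^ Module.finrank ℚ K := by
    rw [Ideal.absNorm_span_singleton, ← RingOfIntegers.rank,
      show (p : 𝓞 K) = algebraMap ℤ (𝓞 K) p by simp, Algebra.norm_algebraMap]
    simp
  have hne : Ideal.span {(p : 𝓞 K)} ≠ ⊤ := by
    intro h
    rw [h, Ideal.absNorm_top] at hN
    have := Nat.one_lt_pow (Module.finrank_pos (R := ℚ) (M := K)).ne' hp.one_lt
    omega
  obtain ⟨I, hI, hle⟩ := Ideal.exists_le_maximal _ hne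
  have hpI : (p : 𝓞 K) ∈ I := hle (Ideal.subset_span rfl)
  have hI0 : I ≠ ⊥ := fun h => by
    rw [h, Ideal.mem_bot] at hpI
    exact hp.ne_zero (by exact_mod_cast hpI)
  let v : HeightOneSpectrum (𝓞 K) := ⟨I, hI.isPrime, hI0⟩
  have hIq : Ideal.absNorm I ≤ q :=
    (Nat.le_of_dvd (by rw [hN]; exact pow_pos hp.pos _)
      (Ideal.absNorm_dvd_absNorm_of_le hle)).trans (hN ▸ hq)
  have h1N := HeightOneSpectrum.one_lt_absNorm_nnreal v
  have hw : ∀ x : K, (FinitePlace.mk v).1 x =
      WithZeroMulInt.toNNReal (HeightOneSpectrum.absNorm_ne_zero v) (v.valuation K x) := by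
    intro x
    rw [← FinitePlace.coe_apply, FinitePlace.mk_apply, FinitePlace.norm_embedding,
      HeightOneSpectrum.adicAbv_def]
  have hlt : ∀ x : K, (FinitePlace.mk v).1 x < 1 ↔ v.valuation K x < 1 := by
    intro x
    rw [hw, ← WithZeroMulInt.toNNReal_lt_one_iff h1N]
    norm_cast
  have hle1 : ∀ x : K, (FinitePlace.mk v).1 x ≤ 1 ↔ v.valuation K x ≤ 1 := by
    intro x
    rw [hw, ← WithZeroMulInt.toNNReal_le_one_iff h1N]
    norm_cast
  refine ⟨FinitePlace.mk v, ?_, ?_, ?_⟩
  · rw [hlt, show (p : K) = algebraMap (𝓞 K) K p by simp,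
      HeightOneSpectrum.valuation_lt_one_iff_mem]
    exact hpI
  · intro x hx
    rw [hlt] at hx
    rw [hw]
    by_cases h0 : v.valuation K x = 0
    · rw [h0]; simp
    · rw [WithZeroMulInt.toNNReal_neg_apply _ h0]
      have h2 : (WithZero.unzero h0).toAdd ≤ -1 := by
        rw [← WithZero.coe_unzero h0, ← WithZero.coe_one, WithZero.coe_lt_coe] at hx
        have : (WithZero.unzero h0).toAdd < 0 := hx
        omega
      have h3 : (2 : ℝ) ≤ Ideal.absNorm v.asIdeal := by
        exact_mod_cast HeightOneSpectrum.one_lt_absNorm v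
      push_cast
      refine (zpow_le_zpow_right₀ (by linarith) h2).trans ?_
      rw [zpow_neg_one, one_div]
      exact inv_anti₀ two_pos h3
  · have hfin : Finite (𝓞 K ⧸ I) := Ideal.finiteQuotientOfFreeOfNeBot I hI0
    have hcard : Nat.card (𝓞 K ⧸ I) ≤ Nat.card (Fin q) := by
      rw [Nat.card_eq_fintype_card (α := Fin q), Fintype.card_fin]
      exact hIq
    have := Fintype.ofFinite (𝓞 K ⧸ I)
    rw [Nat.card_eq_fintype_card, Nat.card_eq_fintype_card] at hcard
    obtain ⟨f⟩ := Function.Embedding.nonempty_of_card_le hcard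
    have hex : ∀ x : K, ∃ a : 𝓞 K, v.valuation K x ≤ 1 →
        v.valuation K (algebraMap (𝓞 K) K a - x) < 1 := by
      intro x
      by_cases h : v.valuation K x ≤ 1
      · obtain ⟨a, ha⟩ := v.exists_valuation_sub_lt_of_integer h 1
        exact ⟨a, fun _ => ha⟩
      · exact ⟨0, fun h' => absurd h' h⟩
    choose a ha using hex
    refine ⟨fun x => f (Ideal.Quotient.mk I (a x)), fun x y hx hy h => ?_⟩
    rw [hle1] at hx hy
    rw [hlt]
    have h1 : v.valuation K (algebraMap (𝓞 K) K (a x - a y)) < 1 :=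
      (v.valuation_lt_one_iff_mem _).2 (Ideal.Quotient.eq.1 (f.injective h))
    have : x - y = algebraMap (𝓞 K) K (a x - a y) - (algebraMap (𝓞 K) K (a x) - x) +
        (algebraMap (𝓞 K) K (a y) - y) := by
      rw [map_sub]; ring
    rw [this]
    exact Valuation.map_add_lt _ (Valuation.map_sub_lt _ h1 (ha x hx)) (ha y hy)

theorem exists_places (Q : ℕ) : ∃ W : Finset (nonarchAbsVal (K := K)),
    W.card = Q.primeCounting ∧ ∀ w ∈ W, Pl w (Q ^ Module.finrank ℚ K) := by
  classical
  have h : ∀ p : Q.primesLE, ∃ w : nonarchAbsVal (K := K), w.1 (p : ℕ) < 1 ∧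
      Pl w (Q ^ Module.finrank ℚ K) := fun p => by
    have := Nat.mem_primesLE.1 p.2
    exact exists_place this.2 (Nat.pow_le_pow_left this.1 _)
  choose w hw using h
  refine ⟨Finset.univ.image w, ?_, fun v hv => ?_⟩
  · rw [Finset.card_image_of_injective, Finset.card_univ, Fintype.card_coe,
      Nat.primesLE_card_eq_primeCounting]
    intro p p' h
    by_contra hne
    have hc : IsCoprime ((p : ℕ) : ℤ) ((p' : ℕ) : ℤ) := Nat.isCoprime_iff_coprime.2
      ((Nat.coprime_primes (Nat.mem_primesLE.1 p.2).2 (Nat.mem_primesLE.1 p'.2).2).2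
        fun h => hne (Subtype.ext h))
    obtain ⟨a, b, hab⟩ := hc
    have hna := isNonarchimedean _ (w p).2
    have h1 := (hw p).1
    have h2 := (hw p').1
    rw [← h] at h2
    have h3 : ((a : K) * (p : ℕ) + (b : K) * (p' : ℕ)) = 1 := by exact_mod_cast congrArg (Int.cast (R := K)) hab
    have h4 := hna ((a : K) * (p : ℕ)) ((b : K) * (p' : ℕ))
    rw [h3, map_one, map_mul, map_mul] at h4
    have h5 : (w p).1 a ≤ 1 := hna.apply_intCast_le_one
    have h6 : (w p).1 b ≤ 1 := hna.apply_intCast_le_one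
    have h7 := mul_le_of_le_one_left ((w p).1.nonneg ((p : ℕ) : K)) h5
    have h8 := mul_le_of_le_one_left ((w p).1.nonneg ((p' : ℕ) : K)) h6
    exact absurd h4 (not_le.2 (max_lt (h7.trans_lt h1) (h8.trans_lt h2)))
  · obtain ⟨p, -, rfl⟩ := Finset.mem_image.1 hv
    exact (hw p).2

end Pool.Agent.KSD
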