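import Pool.Agent.MP_c8dfda_nt.dm.Ht

/-! Reduced form of a rational function in the fibre variable. -/

set_option maxHeartbeats 400000

namespace Pool.Agent.KSD

open Polynomial Height Filter

theorem bez_deg {k : Type*} [Field k] {A B : k[X]} (h : IsCoprime A B) (hA : A ≠ 0)
    (hB : B.natDegree ≤ A.natDegree) (T : k[X]) (hT : T.natDegree ≤ 2 * A.natDegree) :
    ∃ U V : k[X], U.natDegree ≤ A.natDegree ∧ V.natDegree ≤ A.natDegree ∧ U * A + V * B = T := by
  obtain ⟨U, V, hUV⟩ := h
  have hV : (T * V % A).natDegree ≤ A.natDegree :=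
    natDegree_le_natDegree (degree_mod_lt _ hA).le
  have e : (T * U + T * V / A * B) * A + T * V % A * B = T := by
    have := EuclideanDomain.div_add_mod (T * V) A
    linear_combination B * this + T * hUV
  refine ⟨_, _, ?_, hV, e⟩
  by_cases h0 : T * U + T * V / A * B = 0
  · rw [h0]; simp
  have h1 := natDegree_mul h0 hA
  rw [eq_sub_of_add_eq e] at h1
  have h2 := natDegree_sub_le T (T * V % A * B)
  have h3 := natDegree_mul_le (p := T * V % A) (q := B)
  omega

theorem bez_max {k : Type*} [Field k] {A B : k[X]} (h : IsCoprime A B) (hB : B ≠ 0) (T : k[X])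
    (hT : T.natDegree ≤ 2 * max A.natDegree B.natDegree) :
    ∃ U V : k[X], U.natDegree ≤ max A.natDegree B.natDegree ∧
      V.natDegree ≤ max A.natDegree B.natDegree ∧ U * A + V * B = T := by
  rcases le_or_gt A.natDegree B.natDegree with h1 | h1
  · rw [max_eq_right h1] at hT ⊢
    obtain ⟨U, V, h2, h3, h4⟩ := bez_deg h.symm hB h1 T hT
    exact ⟨V, U, h3, h2, by rw [add_comm, h4]⟩
  · rw [max_eq_left h1.le] at hT ⊢
    exact bez_deg h (by rintro rfl; simp at h1) h1.le T hT

theorem clear {A k : Type*} [CommRing A] [IsDomain A] [Field k] [Algebra A k] [IsFractionRing A k]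
    (p : k[X]) : ∃ c : A, c ≠ 0 ∧ ∃ q : A[X], q.natDegree ≤ p.natDegree ∧
      q.map (algebraMap A k) = C (algebraMap A k c) * p := by
  obtain ⟨c, hc, h⟩ := IsLocalization.integerNormalization_spec (nonZeroDivisors A) p
  refine ⟨c, nonZeroDivisors.ne_zero hc, _, ?_, by rw [h, Algebra.smul_def, Polynomial.algebraMap_apply]⟩
  rw [← natDegree_map_eq_of_injective (IsFractionRing.injective A k), h]
  exact natDegree_smul_le _ _

variable {K : Type*} [Field K]

theorem red_poly (a b : K[X][X]) (hb : b ≠ 0) : ∃ A B : K[X][X],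
    let f : RatFunc (RatFunc K) := algebraMap _ _ (a.map (algebraMap K[X] (RatFunc K))) /
      algebraMap _ _ (b.map (algebraMap K[X] (RatFunc K)))
    let d := max f.num.natDegree f.denom.natDegree
    B ≠ 0 ∧ a * B = b * A ∧ A.natDegree ≤ d ∧ B.natDegree ≤ d ∧
      ∀ T : K[X][X], T.natDegree ≤ 2 * d → ∃ U V : K[X][X], ∃ r : K[X], r ≠ 0 ∧
        U.natDegree ≤ d ∧ V.natDegree ≤ d ∧ U * A + V * B = C r * T := by
  have hinj := IsFractionRing.injective K[X] (RatFunc K)
  have hmap := map_injective _ hinj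
  set f : RatFunc (RatFunc K) := algebraMap _ _ (a.map (algebraMap K[X] (RatFunc K))) /
      algebraMap _ _ (b.map (algebraMap K[X] (RatFunc K))) with hf
  obtain ⟨c, hc, A, hA, hA'⟩ := clear (A := K[X]) f.num
  obtain ⟨c', hc', B, hB, hB'⟩ := clear (A := K[X]) f.denom
  have hb' : b.map (algebraMap K[X] (RatFunc K)) ≠ 0 := (Polynomial.map_ne_zero_iff hinj).2 hb
  have h1 := (RatFunc.num_mul_eq_mul_denom_iff hb').2 hf
  refine ⟨C c' * A, C c * B, ?_, ?_, (natDegree_C_mul_le _ _).trans (hA.trans (le_max_left _ _)),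
    (natDegree_C_mul_le _ _).trans (hB.trans (le_max_right _ _)), fun T hT => ?_⟩
  · refine mul_ne_zero (C_ne_zero.2 hc) fun h => ?_
    rw [h, Polynomial.map_zero] at hB'
    exact mul_ne_zero (C_ne_zero.2 ((map_ne_zero_iff _ hinj).2 hc')) f.denom_ne_zero hB'.symm
  · apply hmap
    simp only [Polynomial.map_mul, map_C, hA', hB']
    linear_combination (-C (algebraMap K[X] (RatFunc K) c) * C (algebraMap K[X] (RatFunc K) c')) * h1
  · obtain ⟨U, V, hU, hV, h⟩ := bez_max f.isCoprime_num_denom f.denom_ne_zero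
      (T.map (algebraMap K[X] (RatFunc K))) (natDegree_map_le.trans hT)
    obtain ⟨u, hu, U', hU1, hU2⟩ := clear (A := K[X]) U
    obtain ⟨v, hv, V', hV1, hV2⟩ := clear (A := K[X]) V
    refine ⟨C v * U', C u * V', u * v * c * c',
      mul_ne_zero (mul_ne_zero (mul_ne_zero hu hv) hc) hc',
      (natDegree_C_mul_le _ _).trans (hU1.trans hU), (natDegree_C_mul_le _ _).trans (hV1.trans hV),
      hmap ?_⟩
    simp only [Polynomial.map_mul, Polynomial.map_add, map_C, hA', hB', hU2, hV2, map_mul, ← h]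
    ring

theorem gap' [NumberField K] {M : Type*} [Field M] [Algebra K M]
    {a0 a1 b : MvPolynomial (Fin 2) K} (ψ : MvPolynomial (Fin 2) K →+* M)
    (hc : ∀ c : K, ψ (algebraMap K _ c) = algebraMap K _ c) (hi : Function.Injective ψ)
    (hs : ∀ z, ∃ x y, z = ψ x / ψ y)
    (hnb : IntermediateField.adjoin K {ψ a0 / ψ b, ψ a1 / ψ b} ≠ ⊤) :
    ∃ κ : ℝ, 0 < κ ∧ ∀ P : ℕ → Fin 2 → K, (∀ n, MvPolynomial.eval (P n) b ≠ 0) →
      (∀ n, MvPolynomial.eval (P n) a0 = MvPolynomial.eval (P n) b * P (n + 1) 0) →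
      (∀ n, MvPolynomial.eval (P n) a1 = MvPolynomial.eval (P n) b * P (n + 1) 1) →
      (∀ G : MvPolynomial (Fin 2) K, (∀ n, MvPolynomial.eval (P n) G = 0) → G = 0) →
      ∃ᶠ n : ℕ in atTop, ∃ i, (n : ℝ) ^ κ < logHeight₁ (P n i) := by
  let _ : Algebra (MvPolynomial (Fin 2) K) M := ψ.toAlgebra
  have : IsScalarTower K (MvPolynomial (Fin 2) K) M :=
    IsScalarTower.of_algebraMap_eq fun c => (hc c).symm
  have : FaithfulSMul (MvPolynomial (Fin 2) K) M :=
    (faithfulSMul_iff_algebraMap_injective _ _).2 hi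
  have : IsFractionRing (MvPolynomial (Fin 2) K) M := IsFractionRing.of_field _ _ hs
  exact gap (M := M) hnb

theorem red [NumberField K] (β : K) (a b : MvPolynomial (Fin 2) K) (hb : b ≠ 0) :
    ∃ (d : ℕ) (A B U V U' V' : MvPolynomial (Fin 2) K) (r : K[X]), B ≠ 0 ∧ a * B = b * A ∧
      YD d A ∧ YD d B ∧ YD d U ∧ YD d V ∧ YD d U' ∧ YD d V' ∧ r ≠ 0 ∧
      U * A + V * B = aeval (MvPolynomial.X 0) r ∧
      U' * A + V' * B = aeval (MvPolynomial.X 0) r * MvPolynomial.X 1 ^ (2 * d) ∧
      (2 ≤ d → ∃ κ : ℝ, 0 < κ ∧ ∀ P : ℕ → Fin 2 → K, (∀ n, MvPolynomial.eval (P n) b ≠ 0) →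
        (∀ n, MvPolynomial.eval (P n) ((MvPolynomial.X 0 + MvPolynomial.C β) * b) =
          MvPolynomial.eval (P n) b * P (n + 1) 0) →
        (∀ n, MvPolynomial.eval (P n) a = MvPolynomial.eval (P n) b * P (n + 1) 1) →
        (∀ G : MvPolynomial (Fin 2) K, (∀ n, MvPolynomial.eval (P n) G = 0) → G = 0) →
        ∃ᶠ n : ℕ in atTop, ∃ i, (n : ℝ) ^ κ < logHeight₁ (P n i)) := by
  let E := Bivariate.equivMvPolynomial K
  have hb' : E.symm b ≠ 0 := (map_ne_zero_iff _ E.symm.injective).2 hb
  obtain ⟨A, B, h⟩ := red_poly (E.symm a) (E.symm b) hb'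
  set f : RatFunc (RatFunc K) := algebraMap _ _ ((E.symm a).map (algebraMap K[X] (RatFunc K))) /
      algebraMap _ _ ((E.symm b).map (algebraMap K[X] (RatFunc K))) with hf
  set d := max f.num.natDegree f.denom.natDegree with hd
  obtain ⟨hB, hab, hA1, hB1, hT⟩ := h
  obtain ⟨U, V, r, hr, hU, hV, h1⟩ := hT 1 (by simp)
  obtain ⟨U', V', r', hr', hU', hV', h2⟩ := hT (X ^ (2 * d)) (by simp [hd])
  have hC : ∀ p : K[X], E (C p) = aeval (MvPolynomial.X 0) p := fun p => by
    simp [E, Bivariate.equivMvPolynomial, eval_map, aeval_def]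
  have hX : E X = MvPolynomial.X 1 := by simp [E]
  refine ⟨d, E A, E B, E (C r' * U), E (C r' * V), E (C r * U'), E (C r * V'), r * r',
    (map_ne_zero_iff _ E.injective).2 hB, ?_, yd_equiv hA1, yd_equiv hB1,
    yd_equiv ((natDegree_C_mul_le _ _).trans hU), yd_equiv ((natDegree_C_mul_le _ _).trans hV),
    yd_equiv ((natDegree_C_mul_le _ _).trans hU'), yd_equiv ((natDegree_C_mul_le _ _).trans hV'),
    mul_ne_zero hr hr', ?_, ?_, fun h2d => ?_⟩
  · have := congrArg E hab
    rwa [map_mul, map_mul, E.apply_symm_apply, E.apply_symm_apply] at this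
  · have h3 : C r' * U * A + C r' * V * B = C (r * r') := by
      rw [C_mul]
      linear_combination C r' * h1
    have := congrArg E h3
    rwa [map_add, map_mul E (C r' * U), map_mul E (C r' * V), hC] at this
  · have h3 : C r * U' * A + C r * V' * B = C (r * r') * X ^ (2 * d) := by
      rw [C_mul]
      linear_combination C r * h2
    have := congrArg E h3
    rwa [map_add, map_mul E (C r * U'), map_mul E (C r * V'), map_mul E (C (r * r')), hC, map_pow,
      hX] at this
  · have hinj := IsFractionRing.injective K[X] (RatFunc K)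
    let ψ : MvPolynomial (Fin 2) K →+* RatFunc (RatFunc K) :=
      ((algebraMap (RatFunc K)[X] (RatFunc (RatFunc K))).comp
        (mapRingHom (algebraMap K[X] (RatFunc K)))).comp E.symm.toRingEquiv.toRingHom
    have hψ : ∀ G, ψ G = algebraMap (RatFunc K)[X] (RatFunc (RatFunc K))
        ((E.symm G).map (algebraMap K[X] (RatFunc K))) := fun G => rfl
    have hψi : Function.Injective ψ :=
      ((IsFractionRing.injective _ _).comp (map_injective _ hinj)).comp E.symm.injective
    have hk : ∀ p : K[X], ψ (E (C p)) =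
        algebraMap (RatFunc K) (RatFunc (RatFunc K)) (algebraMap K[X] (RatFunc K) p) := by
      intro p
      rw [hψ, E.symm_apply_apply, map_C]
      rfl
    have hK : ∀ c : K, algebraMap K (RatFunc (RatFunc K)) c =
        algebraMap (RatFunc K) (RatFunc (RatFunc K)) (algebraMap K[X] (RatFunc K) (C c)) :=
      fun c => rfl
    have hcm : ∀ c : K, ψ (algebraMap K _ c) = algebraMap K _ c := fun c => by
      rw [hK, ← hk, hC, aeval_C]
    have hsurj : ∀ z, ∃ x y, z = ψ x / ψ y := fun z => by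
        obtain ⟨c, hc, p, -, hp⟩ := clear (A := K[X]) z.num
        obtain ⟨c', hc', q, -, hq⟩ := clear (A := K[X]) z.denom
        refine ⟨E (C c' * p), E (C c * q), ?_⟩
        rw [hψ, hψ, E.symm_apply_apply, E.symm_apply_apply]
        simp only [Polynomial.map_mul, map_C, hp, hq, map_mul]
        have h3 : ∀ c : K[X], c ≠ 0 → algebraMap (RatFunc K)[X] (RatFunc (RatFunc K))
            (C (algebraMap K[X] (RatFunc K) c)) ≠ 0 := fun c hc =>
          (map_ne_zero_iff _ (IsFractionRing.injective _ _)).2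
            (C_ne_zero.2 ((map_ne_zero_iff _ hinj).2 hc))
        rw [← mul_assoc, ← mul_assoc, mul_comm (algebraMap _ _ (C (algebraMap _ _ c'))),
          mul_div_mul_left _ _ (mul_ne_zero (h3 c hc) (h3 c' hc')), RatFunc.num_div_denom]
    refine gap' ψ hcm hψi hsurj fun htop => ?_
    have h3 : IntermediateField.adjoin (RatFunc K) {f} = ⊤ := by
      rw [eq_top_iff]
      intro z _
      have hz : z ∈ (⊤ : IntermediateField K (RatFunc (RatFunc K))) := trivial
      rw [← htop] at hz
      refine (IntermediateField.adjoin_le_iff (T :=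
        (IntermediateField.adjoin (RatFunc K) {f}).restrictScalars K)).2 ?_ hz
      rintro y (rfl | rfl)
      · have h4 : ψ b ≠ 0 := (map_ne_zero_iff _ hψi).2 hb
        rw [map_mul, mul_div_cancel_right₀ _ h4,
          show MvPolynomial.X 0 + MvPolynomial.C β = E (C (X + C β)) by rw [hC]; simp, hk]
        exact (IntermediateField.adjoin (RatFunc K) {f}).algebraMap_mem _
      · exact IntermediateField.mem_adjoin_simple_self (RatFunc K) f
    have h5 := f.finrank_eq_max_natDegree
    rw [h3, IntermediateField.finrank_top, ← hd] at h5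
    omega

end Pool.Agent.KSD
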