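import Pool.Agent.MP_c8dfda_nt.dm.Red
import Pool.Agent.MP_c8dfda_nt.dm.Defs

/-! The Kawaguchi-Silverman conjecture for rational skew products over a translation. -/

set_option maxHeartbeats 800000

namespace Pool.Agent.KSD

open MvPolynomial Height Filter Topology

variable {K : Type} [Field K]

theorem YD.mono {d d' : ℕ} {G : MvPolynomial (Fin 2) K} (h : YD d G) (hd : d ≤ d') : YD d' G := by
  obtain ⟨c, rfl⟩ := h
  refine ⟨fun i => if i < d + 1 then c i else 0, ?_⟩
  rw [← Finset.sum_subset (Finset.range_mono (Nat.succ_le_succ hd))]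
  · refine Finset.sum_congr rfl fun i hi => ?_
    have : i < d + 1 := Finset.mem_range.1 hi
    simp only [if_pos this]
  · intro i _ hi
    have : ¬ i < d + 1 := fun h => hi (Finset.mem_range.2 h)
    simp only [if_neg this, map_zero, zero_mul]

theorem deg_shift (t : K) (p : Polynomial K) :
    (Polynomial.aeval (X 0 + C t : MvPolynomial (Fin 2) K) p).totalDegree ≤ p.natDegree := by
  rw [Polynomial.aeval_eq_sum_range]
  refine totalDegree_finsetSum_le fun i hi => (totalDegree_smul_le _ _).trans ?_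
  refine (totalDegree_pow _ _).trans ?_
  have : (X 0 + C t : MvPolynomial (Fin 2) K).totalDegree ≤ 1 :=
    (totalDegree_add _ _).trans (by simp [totalDegree_X])
  have := Finset.mem_range.1 hi
  nlinarith

theorem yd_step {M : Type} [Field M] [Algebra K M] (φ : MvPolynomial (Fin 2) K →ₐ[K] M) {d : ℕ}
    {A : MvPolynomial (Fin 2) K} (hA : YD d A) : ∃ c : ℕ, ∀ (t : K) (v : Fin 2 → M)
      (U W : MvPolynomial (Fin 2) K) (s : ℕ), U.totalDegree ≤ s → W.totalDegree ≤ s →
      v 0 = φ (X 0 + C t) → v 1 * φ W = φ U →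
      ∃ U' : MvPolynomial (Fin 2) K, U'.totalDegree ≤ c + d * s ∧ φ U' = φ W ^ d * aeval v A := by
  obtain ⟨α, rfl⟩ := hA
  refine ⟨∑ i ∈ Finset.range (d + 1), (α i).natDegree, fun t v U W s hU hW h0 h1 =>
    ⟨∑ i ∈ Finset.range (d + 1), Polynomial.aeval (X 0 + C t) (α i) * U ^ i * W ^ (d - i), ?_, ?_⟩⟩
  · refine totalDegree_finsetSum_le fun i hi => ?_
    have h2 := (deg_shift t (α i)).trans
      (Finset.single_le_sum (f := fun i => (α i).natDegree) (fun _ _ => Nat.zero_le _) hi)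
    have h3 := (totalDegree_pow U i).trans (Nat.mul_le_mul_left _ hU)
    have h4 := (totalDegree_pow W (d - i)).trans (Nat.mul_le_mul_left _ hW)
    have h5 := totalDegree_mul (Polynomial.aeval (X 0 + C t) (α i) * U ^ i) (W ^ (d - i))
    have h6 := totalDegree_mul (Polynomial.aeval (X 0 + C t : MvPolynomial (Fin 2) K) (α i)) (U ^ i)
    obtain ⟨j, rfl⟩ := Nat.exists_eq_add_of_le (Nat.lt_succ_iff.1 (Finset.mem_range.1 hi))
    rw [Nat.add_sub_cancel_left] at h4 h5 ⊢
    nlinarith
  · rw [aeval_yd, map_sum, Finset.mul_sum]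
    refine Finset.sum_congr rfl fun i hi => ?_
    obtain ⟨j, rfl⟩ := Nat.exists_eq_add_of_le (Nat.lt_succ_iff.1 (Finset.mem_range.1 hi))
    rw [Nat.add_sub_cancel_left, map_mul, map_mul, map_pow, map_pow, ← h1,
      ← Polynomial.aeval_algHom_apply, ← h0]
    ring

theorem ht_step [NumberField K] {d : ℕ} {A B U V U' V' : MvPolynomial (Fin 2) K}
    {r : Polynomial K} (hA : YD d A) (hB : YD d B) (hU : YD d U) (hV : YD d V) (hU' : YD d U')
    (hV' : YD d V') (h1 : U * A + V * B = Polynomial.aeval (X 0) r)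
    (h2 : U' * A + V' * B = Polynomial.aeval (X 0) r * X 1 ^ (2 * d)) :
    ∃ c : ℝ, 0 ≤ c ∧ ∀ Q : Fin 2 → K, r.eval (Q 0) ≠ 0 →
      d * logHeight₁ (Q 1) - c * (logHeight₁ (Q 0) + 1) ≤ logHeight₁ (eval Q A / eval Q B) ∧
      logHeight₁ (eval Q A / eval Q B) ≤ d * logHeight₁ (Q 1) + c * (logHeight₁ (Q 0) + 1) := by
  obtain ⟨c, hc, h3⟩ := height_yd (s := d) ![A, B] (fun i => by fin_cases i <;> assumption)
  obtain ⟨c', hc', h4⟩ := height_yd (s := d)
    (fun p : Fin 2 × Fin 2 => ![![U', V'], ![U, V]] p.1 p.2)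
    (fun ⟨i, j⟩ => by fin_cases i <;> fin_cases j <;> assumption)
  have h0 : 0 ≤ (totalWeight K : ℝ) * Real.log (Nat.card (Fin 2)) := by positivity
  refine ⟨c + c' + totalWeight K * Real.log (Nat.card (Fin 2)), by positivity, fun Q hr => ?_⟩
  have hx := zero_le_logHeight₁ (Q 0)
  have e1 : (fun i => eval Q (![A, B] i)) = ![eval Q A, eval Q B] := by
    funext i; fin_cases i <;> rfl
  have h5 := h3 Q
  have h6 := h4 Q
  have h7 := logHeight_linearMap_apply_le
    (fun p : Fin 2 × Fin 2 => eval Q (![![U', V'], ![U, V]] p.1 p.2)) ![eval Q A, eval Q B]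
  have er : eval Q (Polynomial.aeval (X 0 : MvPolynomial (Fin 2) K) r) = r.eval (Q 0) := by
    rw [← aeval_eq_eval, ← Polynomial.aeval_algHom_apply, aeval_X, Polynomial.coe_aeval_eq_eval]
  have e2 : (fun j => ∑ i, (fun p : Fin 2 × Fin 2 => eval Q (![![U', V'], ![U, V]] p.1 p.2)) (j, i) *
      ![eval Q A, eval Q B] i) = r.eval (Q 0) • ![Q 1, 1] ^ (2 * d) := by
    have k1 := congrArg (eval Q) h1
    have k2 := congrArg (eval Q) h2
    simp only [map_add, map_mul, map_pow, eval_X, er] at k1 k2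
    funext j
    fin_cases j
    · simpa [Fin.sum_univ_two] using k2
    · simpa [Fin.sum_univ_two] using k1
  rw [e2, logHeight_smul_eq_logHeight _ hr, logHeight_pow, ← logHeight₁_eq_logHeight] at h7
  rw [e1] at h5
  rw [logHeight₁_div_eq_logHeight]
  push_cast at h7
  constructor <;> nlinarith

theorem skew [NumberField K] (β : K) (a b : MvPolynomial (Fin 2) K) (P : ℕ → Fin 2 → K)
    (hb : ∀ n, eval (P n) b ≠ 0)
    (hP : ∀ n, P (n + 1) = ![P n 0 + β, eval (P n) a / eval (P n) b])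
    (hD : ∀ G : MvPolynomial (Fin 2) K, (∀ n, eval (P n) G = 0) → G = 0) :
    ∃ δ : ℝ,
      Tendsto (fun n : ℕ => (ratDeg ((fun g : Fin 2 → FractionRing (MvPolynomial (Fin 2) K) =>
        ![g 0 + algebraMap K _ β, aeval g a / aeval g b])^[n]
          fun i => algebraMap (MvPolynomial (Fin 2) K) _ (X i)) : ℝ) ^ (1 / (n : ℝ))) atTop (𝓝 δ) ∧
      (1 < δ → Tendsto (fun n : ℕ => logHeight ![P n 0, P n 1, 1] ^ (1 / (n : ℝ))) atTop (𝓝 δ)) := by
  classical
  have hb0 : b ≠ 0 := fun h => hb 0 (by rw [h, map_zero])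
  have hP0 : ∀ n, eval (P n) ((X 0 + C β) * b) = eval (P n) b * P (n + 1) 0 := fun n => by
    rw [hP]; simp [mul_comm]
  have hP1 : ∀ n, eval (P n) a = eval (P n) b * P (n + 1) 1 := fun n => by
    rw [hP]
    simp only [Matrix.cons_val_one, Matrix.cons_val_zero]
    rw [mul_div_cancel₀ _ (hb n)]
  have hx : ∀ n : ℕ, P n 0 = P 0 0 + n * β := by
    intro n
    induction n with
    | zero => simp
    | succ n ih => rw [hP]; simp only [Matrix.cons_val_zero]; rw [ih]; push_cast; ring
  have hβ : β ≠ 0 := by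
    rintro rfl
    have := congrArg (eval fun _ => P 0 0 + 1) (hD (X 0 - C (P 0 0)) fun n => by simp [hx n])
    simp at this
  obtain ⟨d, A, B, U, V, U', V', r, hB0, hab, hA, hB, hU, hV, hU', hV', hr, h1, h2, hgap⟩ :=
    red β a b hb0
  let φ := IsScalarTower.toAlgHom K (MvPolynomial (Fin 2) K) (FractionRing (MvPolynomial (Fin 2) K))
  have hφ : ∀ H, algebraMap (MvPolynomial (Fin 2) K) _ H = φ H := fun _ => rfl
  have hinj : Function.Injective φ := IsFractionRing.injective (MvPolynomial (Fin 2) K) _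
  obtain ⟨σ, hσ⟩ := exists_sigma (M := FractionRing (MvPolynomial (Fin 2) K)) P hb hP0 hP1 hD
  simp only [hφ] at hσ
  set G : ℕ → Fin 2 → FractionRing (MvPolynomial (Fin 2) K) := fun n =>
    (fun g : Fin 2 → FractionRing (MvPolynomial (Fin 2) K) =>
      ![g 0 + algebraMap K _ β, aeval g a / aeval g b])^[n]
        fun i => algebraMap (MvPolynomial (Fin 2) K) _ (X i) with hG
  have hG0 : ∀ i, φ (X i) = G 0 i := fun i => rfl
  have hGs : ∀ n, G (n + 1) = ![G n 0 + algebraMap K _ β, aeval (G n) a / aeval (G n) b] :=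
    fun n => Function.iterate_succ_apply' _ _ _
  change ∃ δ : ℝ, Tendsto (fun n : ℕ => (ratDeg (G n) : ℝ) ^ (1 / (n : ℝ))) atTop (𝓝 δ) ∧ _
  clear_value G
  have hφb : φ b ≠ 0 := (map_ne_zero_iff _ hinj).2 hb0
  have hQ : ∀ n H, aeval (G n) H = (σ ^ n) (φ H) := by
    intro n
    induction n with
    | zero =>
      intro H
      have : aeval (G 0) = φ := by ext i; simp [hG0]
      rw [this]; rfl
    | succ n ih =>
      intro H
      rw [pow_succ, AlgHom.mul_apply, hσ, ← AlgHom.comp_apply, comp_aeval, hGs]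
      refine congrArg (fun v => aeval v H) ?_
      funext i
      fin_cases i
      · simp only [Fin.zero_eta, Matrix.cons_val_zero]
        rw [map_mul, mul_div_cancel_right₀ _ hφb, ← ih]
        simp
      · simp only [Fin.mk_one, Matrix.cons_val_one, Matrix.cons_val_zero]
        rw [map_div₀, ih, ih]
  have hne : ∀ n H, H ≠ 0 → aeval (G n) H ≠ 0 := fun n H hH => by
    rw [hQ]
    exact (map_ne_zero _).2 ((map_ne_zero_iff _ hinj).2 hH)
  have hGx : ∀ n : ℕ, G n 0 = φ (X 0 + C (n * β)) := by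
    intro n
    induction n with
    | zero => simp [hG0]
    | succ n ih =>
      rw [hGs]
      simp only [Matrix.cons_val_zero]
      rw [ih, ← φ.commutes β, ← map_add, algebraMap_eq, add_assoc, ← C_add]
      push_cast
      rw [add_mul, one_mul]
  have hrep : ∀ j i (U W : MvPolynomial (Fin 2) K), G j i * φ W = φ U →
      ∀ m, P (m + j) i * eval (P m) W = eval (P m) U := by
    intro j i U W h m
    set e := ((X 0 + C β) * b).totalDegree + a.totalDegree + b.totalDegree
    have d0 : ((X 0 + C β) * b).totalDegree ≤ e := by omega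
    have d1 : a.totalDegree ≤ e := by omega
    have d2 : b.totalDegree ≤ e := by omega
    have t1 := tr_eval d0 d1 d2 φ G hG0
      (fun n => by rw [hGs]; simp [mul_comm])
      (fun n => by
        rw [hGs]
        simp only [Matrix.cons_val_one, Matrix.cons_val_zero]
        rw [mul_div_cancel₀ _ (hne n b hb0)]) j
    have t2 := tr_eval d0 d1 d2 (aeval (P m)) (fun j => P (m + j)) (fun i => aeval_X _ _)
      (fun j => hP0 (m + j)) (fun j => hP1 (m + j))
    have t3 : ∀ j, aeval (P m) (tr e ((X 0 + C β) * b) a b j).2.2 ≠ 0 := by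
      intro j
      induction j with
      | zero => simp [tr]
      | succ j ih => rw [(t2 j).2.2]; exact mul_ne_zero (pow_ne_zero _ ih) (hb _)
    refine mul_left_cancel₀ (t3 j) ?_
    fin_cases i
    · have : (tr e ((X 0 + C β) * b) a b j).1 * W = (tr e ((X 0 + C β) * b) a b j).2.2 * U :=
        hinj (by rw [map_mul, map_mul, t1.1, ← h]; exact mul_assoc _ _ _)
      have := congrArg (aeval (P m)) this
      rw [map_mul, map_mul, (t2 j).1, mul_assoc] at this
      exact this
    · have : (tr e ((X 0 + C β) * b) a b j).2.1 * W = (tr e ((X 0 + C β) * b) a b j).2.2 * U :=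
        hinj (by rw [map_mul, map_mul, t1.2.1, ← h]; exact mul_assoc _ _ _)
      have := congrArg (aeval (P m)) this
      rw [map_mul, map_mul, (t2 j).2.1, mul_assoc] at this
      exact this
  set D := max d 1 with hDd
  have hD1 : 1 ≤ D := le_max_right _ _
  obtain ⟨cA, hcA⟩ := yd_step φ (hA.mono (le_max_left d 1))
  obtain ⟨cB, hcB⟩ := yd_step φ (hB.mono (le_max_left d 1))
  have hup : ∀ j : ℕ, ∃ U W : MvPolynomial (Fin 2) K, W ≠ 0 ∧
      U.totalDegree ≤ (1 + (cA + cB) * j) * D ^ j ∧ W.totalDegree ≤ (1 + (cA + cB) * j) * D ^ j ∧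
      G j 1 * φ W = φ U := by
    intro j
    induction j with
    | zero => exact ⟨X 1, 1, one_ne_zero, by simp [totalDegree_X], by simp, by simp [hG0]⟩
    | succ j ih =>
      obtain ⟨U, W, hW, k1, k2, k3⟩ := ih
      obtain ⟨U1, k4, k5⟩ := hcA _ _ U W _ k1 k2 (hGx j) k3
      obtain ⟨W1, k6, k7⟩ := hcB _ _ U W _ k1 k2 (hGx j) k3
      rw [← hDd] at k4 k5 k6 k7
      have k8 : 1 ≤ D ^ (j + 1) := Nat.one_le_pow _ _ hD1
      have k9 : (1 + (cA + cB) * (j + 1)) * D ^ (j + 1) =
          D * ((1 + (cA + cB) * j) * D ^ j) + cA * D ^ (j + 1) + cB * D ^ (j + 1) := by ring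
      have k10 := Nat.le_mul_of_pos_right cA k8
      have k11 := Nat.le_mul_of_pos_right cB k8
      refine ⟨U1, W1, fun h => ?_, by omega, by omega, ?_⟩
      · rw [h, map_zero] at k7
        exact mul_ne_zero (pow_ne_zero _ ((map_ne_zero_iff _ hinj).2 hW)) (hne j B hB0) k7.symm
      · have := congrArg (aeval (G j)) hab
        rw [map_mul, map_mul] at this
        rw [hGs, k5, k7]
        simp only [Matrix.cons_val_one, Matrix.cons_val_zero]
        rw [div_mul_eq_mul_div, div_eq_iff (hne j b hb0)]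
        linear_combination φ W ^ D * this
  have hmem : ∀ j : ℕ, ((1 + (cA + cB) * j) * D ^ j + 1) ∈ {e : ℕ |
      ∃ (U : Fin 2 → MvPolynomial (Fin 2) K) (W : MvPolynomial (Fin 2) K),
      W ≠ 0 ∧ W.totalDegree ≤ e ∧ ∀ i, (U i).totalDegree ≤ e ∧ G j i * φ W = φ (U i)} := by
    intro j
    obtain ⟨U, W, hW, k1, k2, k3⟩ := hup j
    refine ⟨![(X 0 + C (j * β)) * W, U], W, hW, by omega, fun i => ?_⟩
    fin_cases i
    · have : (X 0 + C (j * β) : MvPolynomial (Fin 2) K).totalDegree ≤ 1 :=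
        (totalDegree_add _ _).trans (by simp only [totalDegree_X, totalDegree_C]; rfl)
      exact ⟨(totalDegree_mul _ _).trans (by omega), by
        simp only [Fin.zero_eta, Matrix.cons_val_zero]; rw [hGx, ← map_mul]⟩
    · exact ⟨k1.trans (Nat.le_succ _), k3⟩
  have hdu : ∀ᶠ j : ℕ in atTop, (ratDeg (G j) : ℝ) ≤
      (2 + (cA + cB)) * ((j : ℝ) + 1) ^ 2 * (D : ℝ) ^ j := by
    refine Eventually.of_forall fun j => ?_
    have k1 : ratDeg (G j) ≤ (1 + (cA + cB) * j) * D ^ j + 1 := Nat.sInf_le (hmem j)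
    have k2 : 1 ≤ D ^ j := Nat.one_le_pow _ _ hD1
    have k3 : (1 + (cA + cB) * j) + 1 ≤ (2 + (cA + cB)) * (j + 1) ^ 2 := by
      nlinarith [Nat.zero_le ((cA + cB) * j), Nat.zero_le ((cA + cB) * j ^ 2), Nat.zero_le j]
    have k4 := Nat.mul_le_mul_right (D ^ j) k3
    exact_mod_cast (show ratDeg (G j) ≤ (2 + (cA + cB)) * (j + 1) ^ 2 * D ^ j by nlinarith)
  have hmin : ∀ j : ℕ, ∃ (U : Fin 2 → MvPolynomial (Fin 2) K) (W : MvPolynomial (Fin 2) K),
      W ≠ 0 ∧ W.totalDegree ≤ ratDeg (G j) ∧ ∀ i, (U i).totalDegree ≤ ratDeg (G j) ∧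
        G j i * φ W = φ (U i) := fun j => Nat.sInf_mem ⟨_, hmem j⟩
  have hone : ∀ j, 1 ≤ ratDeg (G j) := by
    intro j
    obtain ⟨U, W, hW, k1, k2⟩ := hmin j
    by_contra hc
    have k3 := totalDegree_eq_zero_iff_eq_C.1 (show W.totalDegree = 0 by omega)
    have k4 := totalDegree_eq_zero_iff_eq_C.1 (show (U 0).totalDegree = 0 by
      have := (k2 0).1; omega)
    have k5 := hrep j 0 _ _ (k2 0).2 0
    have k6 := hrep j 0 _ _ (k2 0).2 1
    rw [k3, k4, eval_C, eval_C, hx] at k5 k6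
    push_cast at k5 k6
    have k7 : β * coeff 0 W = 0 := by linear_combination k6 - k5
    apply hW
    rw [k3, (mul_eq_zero.1 k7).resolve_left hβ, map_zero]
  have hC2 : (0 : ℝ) < 2 + (cA + cB) := by positivity
  rcases le_or_gt d 1 with hd | hd
  · have e : D = 1 := max_eq_right hd
    rw [e] at hdu
    refine ⟨1, squeeze _ 1 1 _ one_pos one_pos hC2 (Eventually.of_forall fun j => ?_)
      (by simpa using hdu), fun h => absurd h (lt_irrefl _)⟩
    simpa using hone j
  have e : D = d := max_eq_left hd.le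
  rw [e] at hdu
  have hd2 : (2 : ℝ) ≤ d := by exact_mod_cast hd
  obtain ⟨κ, hκ, hfr⟩ := hgap hd
  replace hfr := hfr P hb hP0 hP1 hD
  obtain ⟨c, hc, hst⟩ := ht_step hA hB hU hV hU' hV' h1 h2
  obtain ⟨cx, hcx0, hcx⟩ : ∃ cx : ℝ, 0 ≤ cx ∧ ∀ n : ℕ,
      logHeight₁ (P n 0) + 1 ≤ cx * Real.log (n + 2) := by
    have k0 := zero_le_logHeight₁ (P 0 0)
    have k1 := zero_le_logHeight₁ β
    have kW : (0 : ℝ) ≤ totalWeight K := Nat.cast_nonneg _
    refine ⟨2 * (totalWeight K + logHeight₁ (P 0 0) + logHeight₁ β + 1), by positivity, fun n => ?_⟩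
    have k2 := logHeight₁_add_le (P 0 0) (n * β)
    have k3 := logHeight₁_mul_le (n : K) β
    have k4 := height_nat (K := K) n
    have k5 : Real.log 2 ≤ Real.log (n + 2) :=
      Real.log_le_log two_pos (by have : (0 : ℝ) ≤ n := Nat.cast_nonneg n; linarith)
    have k6 := Real.log_two_gt_d9
    have k7 := mul_le_mul_of_nonneg_left k5 kW
    rw [hx]
    nlinarith
  have hlog : ∀ C : ℝ, ∀ s : ℝ, 0 < s → ∀ᶠ n : ℕ in atTop, C * Real.log (n + 2) ≤ (n : ℝ) ^ s := by
    intro C s hs
    have k1 := (isLittleO_log_rpow_atTop hs).bound (c := 1 / (2 * |C| + 1)) (by positivity)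
    filter_upwards [tendsto_natCast_atTop_atTop.eventually k1, eventually_ge_atTop 2] with n k2 k3
    have k4 : (2 : ℝ) ≤ n := by exact_mod_cast k3
    have k5 : Real.log (n + 2) ≤ 2 * Real.log n := by
      have := Real.log_le_log (by linarith : (0 : ℝ) < n + 2) (by nlinarith : (n : ℝ) + 2 ≤ n ^ 2)
      rwa [Real.log_pow] at this
    have k6 : 0 ≤ Real.log (n + 2) := Real.log_nonneg (by linarith)
    have k7 : 0 ≤ Real.log n := Real.log_nonneg (by linarith)
    rw [Real.norm_of_nonneg k7, Real.norm_of_nonneg (by positivity), one_div, ← div_eq_inv_mul,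
      le_div_iff₀ (by positivity)] at k2
    have k8 := mul_le_mul_of_nonneg_right (le_abs_self C) k6
    have k9 := mul_le_mul_of_nonneg_left k5 (abs_nonneg C)
    nlinarith
  obtain ⟨n1, hn1⟩ : ∃ n1, ∀ n, n1 ≤ n → r.eval (P n 0) ≠ 0 := by
    have k1 : Function.Injective fun n : ℕ => P n 0 := fun n m h => by
      simp only [hx n, hx m] at h
      exact_mod_cast mul_right_cancel₀ hβ (add_left_cancel h)
    obtain ⟨n1, h⟩ := ((Polynomial.finite_setOfPred_isRoot hr).preimage k1.injOn).bddAbove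
    exact ⟨n1 + 1, fun n hn h0 => absurd (h (show n ∈ _ from h0)) (by omega)⟩
  have hy : ∀ n, n1 ≤ n → P (n + 1) 1 = eval (P n) A / eval (P n) B := by
    intro n hn
    have k1 := congrArg (eval (P n)) hab
    have k2 := congrArg (eval (P n)) h1
    rw [map_mul, map_mul, hP1, mul_assoc] at k1
    replace k1 := mul_left_cancel₀ (hb n) k1
    rw [← k1, mul_div_cancel_right₀]
    intro h0
    rw [map_add, map_mul, map_mul, ← k1, h0, ← aeval_eq_eval, ← Polynomial.aeval_algHom_apply,
      aeval_X, Polynomial.coe_aeval_eq_eval] at k2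
    exact hn1 n hn (by simpa using k2.symm)
  obtain ⟨c1, c2, hc1, hc2, hgr⟩ := grow (fun n => logHeight₁ (P n 1))
    (fun n => zero_le_logHeight₁ _) hd2 (mul_nonneg hc hcx0) n1
    (fun n hn => by
      have := (hst _ (hn1 n hn)).1
      have := mul_le_mul_of_nonneg_left (hcx n) hc
      simp only [hy n hn]
      nlinarith)
    (fun n hn => by
      have := (hst _ (hn1 n hn)).2
      have := mul_le_mul_of_nonneg_left (hcx n) hc
      simp only [hy n hn]
      nlinarith)
    ((hfr.and_eventually ((hlog cx κ hκ).and (hlog (2 * (c * cx)) κ hκ))).mono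
      fun n ⟨⟨i, hi⟩, k1, k2⟩ => by
        have := hcx n
        fin_cases i
        · simp only [Fin.zero_eta] at hi
          linarith
        · exact k2.trans_lt hi)
  have hsm : ∀ C : ℝ, ∀ᶠ n : ℕ in atTop, C * Real.log (n + 2) ≤ (d : ℝ) ^ n := by
    intro C
    filter_upwards [hlog C 1 one_pos] with n hn
    rw [Real.rpow_one] at hn
    refine hn.trans (le_trans ?_ (pow_le_pow_left₀ two_pos.le hd2 n))
    exact_mod_cast Nat.lt_two_pow_self.le
  refine ⟨d, squeeze _ d (c1 / (c2 + 1)) _ (by linarith) (by positivity) hC2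
    (Eventually.of_forall fun j => ?_) hdu, fun _ => squeeze _ d c1 (c2 + 1) (by linarith) hc1
      (by positivity) ?_ ?_⟩
  · obtain ⟨U, W, hW, k1, k2⟩ := hmin j
    obtain ⟨c', hc', k3⟩ := height_yd (s := ratDeg (G j)) ![U 1, W] (fun i => by
      fin_cases i
      · exact yd_of_deg (k2 1).1
      · exact yd_of_deg k1)
    have k4 : ∃ᶠ m : ℕ in atTop, eval (P m) W ≠ 0 := by
      by_contra h
      rw [not_frequently, eventually_atTop] at h
      obtain ⟨m, h⟩ := h
      exact hW (dense_succ hD m W fun n hn => not_not.1 (h n hn))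
    obtain ⟨m, k5, k6, k7, k8⟩ := (k4.and_eventually (hgr.and
      (((tendsto_add_atTop_nat j).eventually hgr).and (hsm (c' * cx))))).exists
    have k9 := k3 (P m)
    have e1 : (fun i => eval (P m) (![U 1, W] i)) = ![eval (P m) (U 1), eval (P m) W] := by
      funext i; fin_cases i <;> rfl
    rw [e1, ← logHeight₁_div_eq_logHeight, ← hrep j 1 _ _ (k2 1).2 m,
      mul_div_cancel_right₀ _ k5] at k9
    have k10 := mul_le_mul_of_nonneg_left (hcx m) hc'
    have k11 : (1 : ℝ) ≤ ratDeg (G j) := by exact_mod_cast hone j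
    have k12 := mul_le_mul_of_nonneg_left k6.2 (zero_le_one.trans k11)
    have k13 : (0 : ℝ) < (d : ℝ) ^ m := by positivity
    have k14 := k7.1
    rw [pow_add] at k14
    rw [div_mul_eq_mul_div, div_le_iff₀ (by positivity)]
    refine le_of_mul_le_mul_left ?_ k13
    nlinarith
  · filter_upwards [hgr] with n hn
    exact hn.1.trans (le_h3 (P n) 1)
  · filter_upwards [hgr, hsm cx] with n hn k1
    have k2 := h3_le (P n 0) (P n 1)
    have k3 := hcx n
    have k4 : (1 : ℝ) ≤ ((n : ℝ) + 1) ^ 2 := one_le_pow₀ (by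
      have : (0 : ℝ) ≤ n := Nat.cast_nonneg n
      linarith)
    have k5 : 0 ≤ (c2 + 1) * (d : ℝ) ^ n := by positivity
    nlinarith

end Pool.Agent.KSD
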